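import Pool.Agent.Hhelper78.Chern.Invariant

/-!
# Invariant convex sets are affine subspaces; irreducible pieces
-/

namespace Pool.Agent.Hhelper78.Chern

open Topology Set

variable {E : Type} [NormedAddCommGroup E] [InnerProductSpace ℝ E] [FiniteDimensional ℝ E]

omit [FiniteDimensional ℝ E] in
lemma aff_add (f : E ≃ᵃ[ℝ] E) (p v : E) : f (p + v) = f p + f.linear v := by
  have := f.map_vadd p v
  rw [vadd_eq_add, vadd_eq_add] at this
  rw [add_comm p, this, add_comm]

/-- For a closed affine manifold without (virtual) nonvanishing vector field, every nonempty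
invariant convex set is an affine subspace, and the affine manifold over it has no vector field
either. -/
theorem convex_affine [Nontrivial E] {M : ClosedAffineManifold E} {H : Subgroup M.deck}
    (hH : H.FiniteIndex) (hM : ¬ VirtuallyNonvanishing M) (C : Set E) (hC : Convex ℝ C)
    (hne : C.Nonempty) (hinv : ∀ g ∈ H, ∀ x ∈ C, M.hol g x ∈ C) :
    ∃ (p : E) (L : Submodule ℝ E) (h : SubInv M H p L), C = {x | x - p ∈ L} ∧
      2 ≤ Module.finrank ℝ L ∧ ¬ VirtuallyNonvanishing (subManifold hH h) := by
  obtain ⟨p, hp⟩ := hne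
  let L : Submodule ℝ E := vectorSpan ℝ C
  have hL : ∀ x ∈ C, ∀ y ∈ C, x - y ∈ L := fun x hx y hy => vsub_mem_vectorSpan ℝ hx hy
  have hlin : ∀ g ∈ H, ∀ v ∈ L, (M.hol g).linear v ∈ L := by
    intro g hg v hv
    have h1 := (M.hol g).toAffineMap.map_vectorSpan (s := C)
    have h2 : (M.hol g).toAffineMap.linear v ∈
        Submodule.map (M.hol g).toAffineMap.linear (vectorSpan ℝ C) := Submodule.mem_map_of_mem hv
    rw [h1] at h2
    have h3 : vectorSpan ℝ ((M.hol g).toAffineMap '' C) ≤ vectorSpan ℝ C := by
      apply vectorSpan_mono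
      rintro _ ⟨x, hx, rfl⟩
      exact hinv g hg x hx
    exact h3 h2
  have h : SubInv M H p L := by
    intro g hg v hv
    rw [aff_add, add_sub_right_comm]
    exact L.add_mem (hL _ (hinv g hg p hp) _ hp) (hlin g hg v hv)
  have hM' : ¬ VirtuallyNonvanishing (subManifold hH h) := fun h' => hM (vnv_of_sub hH h h')
  refine ⟨p, L, h, ?_, two_le_of_subInv hH h hM, hM'⟩
  let C' : Set L := {w : L | p + (w : E) ∈ C}
  have hC'conv : Convex ℝ C' := by
    intro a ha b hb s t hs ht hst
    have h1 := hC ha hb hs ht hst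
    have h2 : s • (p + (a : E)) + t • (p + (b : E)) = p + ((s • a + t • b : L) : E) := by
      rw [Submodule.coe_add, Submodule.coe_smul, Submodule.coe_smul, smul_add, smul_add]
      have : s • p + t • p = p := by rw [← add_smul, hst, one_smul]
      calc s • p + s • (a : E) + (t • p + t • (b : E)) =
          (s • p + t • p) + (s • (a : E) + t • (b : E)) := by abel
        _ = _ := by rw [this]
    rwa [h2] at h1
  have hC'ne : C'.Nonempty := ⟨0, by change p + ((0 : L) : E) ∈ C; simpa using hp⟩
  have hC'int : (interior C').Nonempty := interior_slice hC hp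
  have hC'inv : ∀ g : H, ∀ x ∈ C', subHol h g x ∈ C' := by
    intro g x hx
    change p + (M.hol g (p + x) - p) ∈ C
    rw [add_sub_cancel]
    exact hinv g g.2 _ hx
  obtain ⟨p', L', -, hL', hint⟩ := closed_convex (subManifold hH h) ⊤ inferInstance (closure C')
    isClosed_closure hC'conv.closure hC'ne.closure (by
      intro g _ x hx
      have hcont : Continuous (subHol h g) :=
        (subHol h g).toAffineMap.continuous_of_finiteDimensional
      exact map_mem_closure hcont hx (fun y hy => hC'inv g y hy)) hM'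
  have htop : L' = ⊤ := hint (hC'int.mono (interior_mono subset_closure))
  have hclos : closure C' = univ := by
    obtain ⟨d, hd⟩ := hC'ne.closure
    refine eq_univ_of_forall fun x => ?_
    have h1 : x - d ∈ L' := by rw [htop]; exact Submodule.mem_top
    have h2 := (hL' _).mp h1 d hd
    rwa [add_sub_cancel] at h2
  have huniv := convex_dense hC'conv hclos
  ext x
  constructor
  · intro hx
    exact hL x hx p hp
  · intro hx
    have h1 : (⟨x - p, hx⟩ : L) ∈ C' := by rw [huniv]; exact mem_univ _
    have h2 : p + (x - p) ∈ C := h1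
    rwa [add_sub_cancel] at h2

/-- transfer of vector fields -/
lemma vnv_transfer {E₁ E₂ : Type} [NormedAddCommGroup E₁] [InnerProductSpace ℝ E₁]
    [NormedAddCommGroup E₂] [InnerProductSpace ℝ E₂] (M₁ : ClosedAffineManifold E₁)
    (M₂ : ClosedAffineManifold E₂) (ψ : M₂.deck →* M₁.deck) (φ : M₂.cover → M₁.cover)
    (hφ : Continuous φ) (hφe : ∀ g x, φ (g • x) = ψ g • φ x) (B : E₁ →ₗ[ℝ] E₂)
    (hBc : Continuous B) (hB : Function.Injective B)
    (hBe : ∀ g v, B ((M₁.hol (ψ g)).linear v) = (M₂.hol g).linear (B v))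
    (h : VirtuallyNonvanishing M₁) : VirtuallyNonvanishing M₂ := by
  obtain ⟨H, hH, X, hXc, hXe, hX0⟩ := h
  have hfin : (H.comap ψ).FiniteIndex := by
    constructor
    rw [Subgroup.index_comap]
    exact (inferInstance : (H.subgroupOf ψ.range).FiniteIndex).index_ne_zero
  refine ⟨H.comap ψ, hfin, fun x => B (X (φ x)), hBc.comp (hXc.comp hφ), ?_, ?_⟩
  · intro g hg x
    simp only
    rw [hφe, hXe _ hg, hBe]
  · intro x hx
    rw [← map_zero B] at hx
    exact hX0 _ (hB hx)

/-- no vector field, and no invariant affine subspace for any finite index subgroup -/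
def Irred (M : ClosedAffineManifold E) : Prop :=
  ¬ VirtuallyNonvanishing M ∧ ∀ H : Subgroup M.deck, H.FiniteIndex →
    ∀ (p : E) (L : Submodule ℝ E), SubInv M H p L → L = ⊤

/-- every counterexample contains an irreducible one -/
theorem exists_irred {M : ClosedAffineManifold E} (hM : ¬ VirtuallyNonvanishing M) :
    ∃ (H : Subgroup M.deck) (hH : H.FiniteIndex) (p : E) (L : Submodule ℝ E)
      (h : SubInv M H p L), Irred (subManifold hH h) := by
  classical
  let P : ℕ → Prop := fun d => ∃ (H : Subgroup M.deck) (hH : H.FiniteIndex) (p : E)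
    (L : Submodule ℝ E) (h : SubInv M H p L), Module.finrank ℝ L = d ∧
      ¬ VirtuallyNonvanishing (subManifold hH h)
  have hP : ∃ d, P d := by
    have h : SubInv M ⊤ 0 ⊤ := fun _ _ _ _ => Submodule.mem_top
    exact ⟨_, ⊤, inferInstance, 0, ⊤, h, rfl, fun h' => hM (vnv_of_sub _ h h')⟩
  obtain ⟨H, hH, p, L, h, hd, hM'⟩ := Nat.find_spec hP
  refine ⟨H, hH, p, L, h, hM', ?_⟩
  intro K hK p' L' h'
  by_contra hne
  have hlt : Module.finrank ℝ L' < Module.finrank ℝ L := Submodule.finrank_lt hne
  let K' : Subgroup M.deck := Subgroup.map H.subtype K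
  have hK' : K'.FiniteIndex := by
    constructor
    have h1 : K'.index = K.index * H.index := Subgroup.index_map_subtype K
    rw [h1]
    exact mul_ne_zero hK.index_ne_zero hH.index_ne_zero
  let L'' : Submodule ℝ E := Submodule.map L.subtype L'
  have h'' : SubInv M K' (p + p') L'' := by
    rintro _ ⟨g, hg, rfl⟩ _ ⟨v, hv, rfl⟩
    refine ⟨(subManifold hH h).hol g (p' + v) - p', h' g hg v hv, ?_⟩
    change (M.hol (g : M.deck) (p + ((p' : E) + (v : E))) - p) - (p' : E) =
      M.hol (g : M.deck) (p + p' + v) - (p + p')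
    rw [← add_assoc, sub_sub]
  have hd'' : Module.finrank ℝ L'' = Module.finrank ℝ L' :=
    (Submodule.equivMapOfInjective L.subtype L.injective_subtype L').finrank_eq.symm
  have hnot : ¬ VirtuallyNonvanishing (subManifold hK' h'') := by
    intro hv
    apply hM'
    refine vnv_of_sub hK h' ?_
    let e : L' ≃ₗ[ℝ] L'' := Submodule.equivMapOfInjective L.subtype L.injective_subtype L'
    have he : ∀ w : L', ((e w : L'') : E) = ((w : L) : E) := fun w => rfl
    let ψ : K →* K' :=
      { toFun := fun k => ⟨H.subtype k.1, k.1, k.2, rfl⟩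
        map_one' := rfl
        map_mul' := fun _ _ => rfl }
    refine vnv_transfer (subManifold hK' h'') (subManifold hK h') ψ
      (fun x => ⟨(x.1).1, ?_⟩) ?_ ?_ (e.symm : L'' →ₗ[ℝ] L') ?_ e.symm.injective ?_ hv
    · change M.dev x.1.1 - (p + p') ∈ L''
      exact ⟨_, x.2, by
        change M.dev x.1.1 - p - p' = _
        rw [sub_sub]⟩
    · exact (continuous_subtype_val.comp continuous_subtype_val).subtype_mk _
    · intro g x
      rfl
    · exact LinearMap.continuous_of_finiteDimensional _
    · intro g v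
      obtain ⟨w, rfl⟩ := e.surjective v
      change e.symm _ = (subHol h' g).linear (e.symm (e w))
      rw [e.symm_apply_apply, LinearEquiv.symm_apply_eq]
      rfl
  exact Nat.find_min hP (by rw [← hd]; exact hlt) ⟨K', hK', p + p', L'', h'', hd'', hnot⟩

end Pool.Agent.Hhelper78.Chern
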