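import Pool.Agent.Hhelper78.Chern.Defs

/-!
# Averaging
-/

namespace Pool.Agent.Hhelper78.Chern

open Topology

section avg

variable {X G T : Type*} [TopologicalSpace X] [T2Space X] [LocallyCompactSpace X] [Group G]
  [MulAction G X] [NormedAddCommGroup T] [NormedSpace ℝ T] [FiniteDimensional ℝ T]

/-- the data needed for averaging -/
structure Cut (X G : Type*) [TopologicalSpace X] [Group G] [MulAction G X] where
  φ : X → ℝ
  cont : Continuous φ
  cpt : HasCompactSupport φ
  nonneg : ∀ x, 0 ≤ φ x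
  contG : ∀ g : G, Continuous fun x : X => g • x
  proper : ∀ K : Set X, IsCompact K → {g : G | ∃ x ∈ K, g • x ∈ K}.Finite
  pos : ∀ x : X, ∃ g : G, 0 < φ (g • x)

namespace Cut

variable (c : Cut X G)

include c in
lemma lf (x : X) : ∃ U ∈ 𝓝 x, {g : G | ∃ y ∈ U, c.φ (g • y) ≠ 0}.Finite := by
  obtain ⟨N, hN, hx⟩ := exists_compact_mem_nhds x
  refine ⟨N, hx, (c.proper (N ∪ tsupport c.φ) (hN.union c.cpt)).subset ?_⟩
  rintro g ⟨y, hy, hg⟩
  exact ⟨y, Or.inl hy, Or.inr (subset_tsupport _ hg)⟩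

lemma locallyFinite {β : Type*} [Zero β] (f : G → X → β)
    (hf : ∀ g x, c.φ (g • x) = 0 → f g x = 0) :
    LocallyFinite fun g => Function.support (f g) := by
  intro x
  obtain ⟨U, hU, hfin⟩ := c.lf x
  refine ⟨U, hU, hfin.subset ?_⟩
  rintro g ⟨y, hy, hyU⟩
  exact ⟨y, hyU, fun h => hy (hf g y h)⟩

lemma finite (x : X) : {g : G | c.φ (g • x) ≠ 0}.Finite := by
  obtain ⟨U, hU, hfin⟩ := c.lf x
  exact hfin.subset fun g hg => ⟨x, mem_of_mem_nhds hU, hg⟩

/-- the finite set of relevant group elements -/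
noncomputable def fs (x : X) : Finset G := (c.finite x).toFinset

lemma mem_fs {x : X} {g : G} : g ∈ c.fs x ↔ c.φ (g • x) ≠ 0 := by simp [fs]

/-- normalising function -/
noncomputable def tot (x : X) : ℝ := ∑ᶠ g : G, c.φ (g • x)

lemma tot_eq (x : X) : c.tot x = ∑ g ∈ c.fs x, c.φ (g • x) := by
  unfold tot
  apply finsum_eq_sum_of_support_subset
  intro g hg
  simpa [mem_fs] using hg

lemma tot_pos (x : X) : 0 < c.tot x := by
  rw [tot_eq]
  obtain ⟨g, hg⟩ := c.pos x
  exact Finset.sum_pos' (fun g _ => c.nonneg _) ⟨g, c.mem_fs.mpr hg.ne', hg⟩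

lemma continuous_tot : Continuous c.tot := by
  unfold tot
  exact continuous_finsum (fun g => c.cont.comp (c.contG g))
    (c.locallyFinite (fun g x => c.φ (g • x)) (fun _ _ h => h))

lemma tot_smul (a : G) (x : X) : c.tot (a • x) = c.tot x := by
  unfold tot
  rw [← finsum_comp_equiv (Equiv.mulRight a) (f := fun g => c.φ (g • x))]
  refine finsum_congr fun g => ?_
  simp only [Equiv.coe_mulRight, mul_smul]

variable (ρ : G →* (T ≃ᵃ[ℝ] T)) (u : X → T)

/-- unnormalised average -/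
noncomputable def num (x : X) : T := ∑ᶠ g : G, c.φ (g • x) • ρ g⁻¹ (u (g • x))

lemma num_eq (x : X) : c.num ρ u x = ∑ g ∈ c.fs x, c.φ (g • x) • ρ g⁻¹ (u (g • x)) := by
  unfold num
  apply finsum_eq_sum_of_support_subset
  intro g hg
  rw [Finset.mem_coe, mem_fs]
  intro h
  rw [Function.mem_support, h, zero_smul] at hg
  exact hg rfl

lemma aff_eq (f : T ≃ᵃ[ℝ] T) (v : T) : f v = f.linear v + f 0 := by
  have := f.map_vadd (0 : T) v
  simpa using this

lemma continuous_num (hu : Continuous fun y => c.φ y • u y) : Continuous (c.num ρ u) := by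
  unfold num
  refine continuous_finsum (fun g => ?_) (c.locallyFinite _ (fun g x h => by rw [h, zero_smul]))
  have h1 : (fun x => c.φ (g • x) • ρ g⁻¹ (u (g • x))) =
      fun x => (ρ g⁻¹).linear (c.φ (g • x) • u (g • x)) + c.φ (g • x) • ρ g⁻¹ 0 := by
    funext x
    rw [aff_eq, smul_add, map_smul]
  rw [h1]
  have h2 : Continuous (ρ g⁻¹).linear := LinearMap.continuous_of_finiteDimensional
    ((ρ g⁻¹).linear : T →ₗ[ℝ] T)
  exact (h2.comp (hu.comp (c.contG g))).add ((c.cont.comp (c.contG g)).smul continuous_const)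

/-- the average of `u` -/
noncomputable def avg (x : X) : T := (c.tot x)⁻¹ • c.num ρ u x

lemma continuous_avg (hu : Continuous fun y => c.φ y • u y) : Continuous (c.avg ρ u) :=
  (c.continuous_tot.inv₀ fun x => (c.tot_pos x).ne').smul (c.continuous_num ρ u hu)

lemma avg_mem {C : Set T} (hC : Convex ℝ C) {x : X}
    (h : ∀ g, c.φ (g • x) ≠ 0 → ρ g⁻¹ (u (g • x)) ∈ C) : c.avg ρ u x ∈ C := by
  unfold avg
  rw [num_eq, Finset.smul_sum]
  simp_rw [smul_smul]
  refine hC.sum_mem (fun g _ => mul_nonneg (inv_nonneg.mpr (c.tot_pos x).le) (c.nonneg _)) ?_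
    (fun g hg => h g (c.mem_fs.mp hg))
  rw [← Finset.mul_sum, ← tot_eq, inv_mul_cancel₀ (c.tot_pos x).ne']

lemma avg_smul (a : G) (x : X) : c.avg ρ u (a • x) = ρ a (c.avg ρ u x) := by
  have h1 : c.num ρ u (a • x) = ∑ᶠ g : G, c.φ (g • x) • ρ a (ρ g⁻¹ (u (g • x))) := by
    unfold num
    rw [← finsum_comp_equiv (Equiv.mulRight a) (f := fun g => c.φ (g • x) •
      ρ a (ρ g⁻¹ (u (g • x))))]
    refine finsum_congr fun g => ?_
    simp only [Equiv.coe_mulRight]
    rw [mul_smul, mul_inv_rev, map_mul]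
    congr 1
    rw [AffineEquiv.mul_def, AffineEquiv.trans_apply]
    rw [← AffineEquiv.trans_apply, ← AffineEquiv.mul_def, ← map_mul, mul_inv_cancel, map_one]
    rfl
  have h2 : (∑ᶠ g : G, c.φ (g • x) • ρ a (ρ g⁻¹ (u (g • x)))) =
      (ρ a).linear (c.num ρ u x) + c.tot x • ρ a 0 := by
    rw [finsum_eq_sum_of_support_subset (s := c.fs x), num_eq, tot_eq, map_sum, Finset.sum_smul,
      ← Finset.sum_add_distrib]
    · refine Finset.sum_congr rfl fun g _ => ?_
      rw [aff_eq (ρ a), smul_add, map_smul]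
    · intro g hg
      rw [Finset.mem_coe, mem_fs]
      intro h
      rw [Function.mem_support, h, zero_smul] at hg
      exact hg rfl
  unfold avg
  rw [h1, h2, tot_smul, smul_add, smul_smul, inv_mul_cancel₀ (c.tot_pos x).ne', one_smul,
    aff_eq (ρ a) ((c.tot x)⁻¹ • c.num ρ u x), map_smul]

end Cut

end avg

variable {E : Type} [NormedAddCommGroup E] [InnerProductSpace ℝ E]

/-- cut off for a closed affine manifold and a finite index subgroup of the deck group -/
lemma exists_cut (M : ClosedAffineManifold E) (H : Subgroup M.deck) (hH : H.FiniteIndex) :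
    ∃ K : Set M.cover, IsCompact K ∧ (∀ x, ∃ g : H, g • x ∈ K) ∧
      ∃ c : Cut M.cover H, (∀ x ∈ K, c.φ x = 1) := by
  classical
  obtain ⟨K, hK, hcov⟩ := M.cocompact
  -- coset representatives
  obtain ⟨S, hS⟩ : ∃ S : Finset M.deck, ∀ g : M.deck, ∃ s ∈ S, ∃ h ∈ H, g = s * h := by
    have hfin : Finite (M.deck ⧸ H) := Subgroup.finite_quotient_of_finiteIndex
    have := Fintype.ofFinite (M.deck ⧸ H)
    refine ⟨Finset.univ.image fun q : M.deck ⧸ H => Quotient.out q, fun g => ?_⟩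
    obtain ⟨h, hh⟩ := QuotientGroup.mk_out_eq_mul H g
    refine ⟨Quotient.out (QuotientGroup.mk (s := H) g), by simp, (h : M.deck)⁻¹,
      H.inv_mem h.2, ?_⟩
    rw [hh, mul_inv_cancel_right]
  let K' : Set M.cover := ⋃ s ∈ S, (fun x => s⁻¹ • x) '' K
  have hK' : IsCompact K' := S.isCompact_biUnion fun s _ => hK.image (M.continuous_smul _)
  have hcov' : ∀ x, ∃ g : H, g • x ∈ K' := by
    intro x
    obtain ⟨g, hg⟩ := hcov x
    obtain ⟨s, hs, h, hh, rfl⟩ := hS g
    refine ⟨⟨h, hh⟩, Set.mem_biUnion hs ⟨(s * h) • x, hg, ?_⟩⟩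
    simp only [mul_smul, inv_smul_smul]
    rfl
  obtain ⟨f, hf1, -, hf2, hf3⟩ := exists_continuous_one_zero_of_isCompact hK' isClosed_empty
    (Set.disjoint_empty K')
  refine ⟨K', hK', hcov', ⟨f, f.continuous, hf2, fun x => (hf3 x).1, fun g => M.continuous_smul g,
    ?_, ?_⟩, fun x hx => hf1 hx⟩
  · intro L hL
    have := M.proper L hL
    refine Set.Finite.of_finite_image (f := Subtype.val) (this.subset ?_) (by simp)
    rintro _ ⟨g, hg, rfl⟩
    exact hg
  · intro x
    obtain ⟨g, hg⟩ := hcov' x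
    refine ⟨g, ?_⟩
    rw [hf1 hg]
    norm_num

end Pool.Agent.Hhelper78.Chern
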