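import Pool.Agent.Hhelper78.Chern.Avg

/-!
# Vector fields obtained by averaging
-/

namespace Pool.Agent.Hhelper78.Chern

open Topology

/-- the linear part of an affine representation, again as an affine representation -/
def linHom {G T : Type*} [Group G] [NormedAddCommGroup T] [NormedSpace ℝ T]
    (ρ : G →* (T ≃ᵃ[ℝ] T)) : G →* (T ≃ᵃ[ℝ] T) where
  toFun g := (ρ g).linear.toAffineEquiv
  map_one' := by ext; rw [map_one]; rfl
  map_mul' g h := by ext; rw [map_mul]; rfl

lemma linHom_apply {G T : Type*} [Group G] [NormedAddCommGroup T] [NormedSpace ℝ T]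
    (ρ : G →* (T ≃ᵃ[ℝ] T)) (g : G) (v : T) : linHom ρ g v = (ρ g).linear v := rfl

/-- the representation of the dual of the linear part -/
lemma aff_sub {T : Type*} [NormedAddCommGroup T] [NormedSpace ℝ T] (f : T ≃ᵃ[ℝ] T) (v w : T) :
    f v - f w = f.linear (v - w) := by
  have := f.toAffineMap.linearMap_vsub v w
  simpa using this.symm

variable {E : Type} [NormedAddCommGroup E] [InnerProductSpace ℝ E]

/-- an invariant convex set of the linear holonomy which misses zero gives a vector field -/
theorem vnv_of_convex [FiniteDimensional ℝ E] (M : ClosedAffineManifold E)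
    (H : Subgroup M.deck) (hH : H.FiniteIndex) (W : Set E) (hW : Convex ℝ W) (hne : W.Nonempty)
    (h0 : (0 : E) ∉ W) (hinv : ∀ g ∈ H, ∀ v ∈ W, (M.hol g).linear v ∈ W) :
    VirtuallyNonvanishing M := by
  obtain ⟨w, hw⟩ := hne
  obtain ⟨K, -, -, c, -⟩ := exists_cut M H hH
  let ρ : H →* (E ≃ᵃ[ℝ] E) := linHom (M.hol.comp H.subtype)
  refine ⟨H, hH, c.avg ρ (fun _ => w), c.continuous_avg ρ _ (c.cont.smul continuous_const), ?_, ?_⟩
  · intro g hg x
    exact c.avg_smul ρ _ ⟨g, hg⟩ x
  · intro x h
    have := c.avg_mem ρ (fun _ => w) hW (x := x) (fun g _ => hinv _ (g⁻¹).2 w hw)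
    rw [h] at this
    exact h0 this

/-- an invariant convex set of the affine holonomy which misses the developing image gives a
vector field -/
theorem vnv_of_convex_disjoint [FiniteDimensional ℝ E] (M : ClosedAffineManifold E)
    (H : Subgroup M.deck) (hH : H.FiniteIndex) (C : Set E) (hC : Convex ℝ C) (hne : C.Nonempty)
    (h0 : ∀ x, M.dev x ∉ C) (hinv : ∀ g ∈ H, ∀ v ∈ C, M.hol g v ∈ C) :
    VirtuallyNonvanishing M := by
  obtain ⟨w, hw⟩ := hne
  obtain ⟨K, -, -, c, -⟩ := exists_cut M H hH
  let ρ : H →* (E ≃ᵃ[ℝ] E) := M.hol.comp H.subtype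
  refine ⟨H, hH, fun x => M.dev x - c.avg ρ (fun _ => w) x,
    M.isLocalHomeomorph_dev.continuous.sub
      (c.continuous_avg ρ _ (c.cont.smul continuous_const)), ?_, ?_⟩
  · intro g hg x
    have := c.avg_smul ρ (fun _ => w) ⟨g, hg⟩ x
    change M.dev (g • x) - c.avg ρ (fun _ => w) ((⟨g, hg⟩ : H) • x) = _
    rw [this, M.dev_smul]
    exact aff_sub _ _ _
  · intro x h
    have := c.avg_mem ρ (fun _ => w) hC (x := x) (fun g _ => hinv _ (g⁻¹).2 w hw)
    rw [← sub_eq_zero.mp h] at this
    exact h0 x this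

/-- an equivariant map to the dual space without zeros gives a vector field -/
theorem vnv_of_form [FiniteDimensional ℝ E] (M : ClosedAffineManifold E)
    (H : Subgroup M.deck) (hH : H.FiniteIndex) (α : M.cover → (E →L[ℝ] ℝ)) (hα : Continuous α)
    (h0 : ∀ x, α x ≠ 0)
    (hinv : ∀ g ∈ H, ∀ x, ∀ v, α (g • x) ((M.hol g).linear v) = α x v) :
    VirtuallyNonvanishing M := by
  have : CompleteSpace E := FiniteDimensional.complete ℝ E
  obtain ⟨K, -, -, c, -⟩ := exists_cut M H hH
  let ρ : H →* (E ≃ᵃ[ℝ] E) := linHom (M.hol.comp H.subtype)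
  let u : M.cover → E := fun x => (InnerProductSpace.toDual ℝ E).symm (α x)
  have hu : Continuous u := (InnerProductSpace.toDual ℝ E).symm.continuous.comp hα
  refine ⟨H, hH, c.avg ρ u, c.continuous_avg ρ _ (c.cont.smul hu), ?_, ?_⟩
  · intro g hg x
    exact c.avg_smul ρ _ ⟨g, hg⟩ x
  · intro x h
    have hC : Convex ℝ {v : E | 0 < α x v} :=
      convex_halfSpace_gt (IsLinearMap.mk (fun a b => map_add _ a b) (fun r a => by simp)) 0
    have := c.avg_mem ρ u hC (x := x) (fun g _ => by
      have h1 := hinv (g : M.deck) g.2 x (ρ g⁻¹ (u (g • x)))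
      have h2 : (M.hol (g : M.deck)).linear (ρ g⁻¹ (u (g • x))) = u (g • x) := by
        change ρ g (ρ g⁻¹ (u (g • x))) = _
        rw [← AffineEquiv.trans_apply, ← AffineEquiv.mul_def, ← map_mul, mul_inv_cancel, map_one]
        rfl
      rw [h2] at h1
      rw [Set.mem_ofPred_eq, ← h1]
      have h3 : α ((g : M.deck) • x) = InnerProductSpace.toDual ℝ E (u (g • x)) := by
        simp only [u, LinearIsometryEquiv.apply_symm_apply]
        rfl
      rw [h3, InnerProductSpace.toDual_apply_apply]
      refine real_inner_self_pos.mpr ?_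
      simp only [u]
      intro h4
      rw [LinearIsometryEquiv.map_eq_zero_iff] at h4
      exact h0 _ h4)
    rw [h] at this
    simp at this

/-- extension of equivariant maps from closed invariant sets -/
theorem exists_equivariant_extension (M : ClosedAffineManifold E)
    (H : Subgroup M.deck) (hH : H.FiniteIndex) {T : Type} [NormedAddCommGroup T]
    [NormedSpace ℝ T] [FiniteDimensional ℝ T] (ρ : H →* (T ≃ᵃ[ℝ] T)) (Z : Set M.cover)
    (hZ : IsClosed Z) (hZinv : ∀ g ∈ H, ∀ x ∈ Z, g • x ∈ Z) (f : M.cover → T)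
    (hf : ContinuousOn f Z) (hfe : ∀ g : H, ∀ x ∈ Z, f ((g : M.deck) • x) = ρ g (f x)) :
    ∃ F : M.cover → T, Continuous F ∧ (∀ g : H, ∀ x, F ((g : M.deck) • x) = ρ g (F x)) ∧
      ∀ x ∈ Z, F x = f x := by
  classical
  obtain ⟨K, -, -, c, -⟩ := exists_cut M H hH
  obtain ⟨K', hK', hsub⟩ := exists_compact_superset c.cpt.isCompact
  have : CompactSpace K' := isCompact_iff_compactSpace.mp hK'
  have : TietzeExtension.{0, 0} T := TietzeExtension.of_tvs ℝ
  let s : Set K' := (↑) ⁻¹' Z
  have hs : IsClosed s := hZ.preimage continuous_subtype_val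
  let f' : C(s, T) := ⟨fun z => f z.1.1, by
    have h1 : Continuous fun z : Z => f z := continuousOn_iff_continuous_domRestrict.mp hf
    exact h1.comp (f := fun z : s => (⟨z.1.1, z.2⟩ : Z)) (by fun_prop)⟩
  obtain ⟨k, hk⟩ := ContinuousMap.exists_restrict_eq hs f'
  let u : M.cover → T := fun x => if h : x ∈ K' then k ⟨x, h⟩ else 0
  have hu : ∀ x ∈ interior K', ContinuousAt u x := by
    intro x hx
    have h1 : ContinuousOn u K' := by
      rw [continuousOn_iff_continuous_domRestrict]
      have : K'.domRestrict u = k := by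
        funext z
        simp [u, z.2, Set.domRestrict]
      rw [this]
      exact k.continuous
    exact h1.continuousAt (mem_interior_iff_mem_nhds.mp hx)
  have hcu : Continuous fun y => c.φ y • u y := by
    refine continuous_of_tsupport fun x hx => ?_
    have h2 : x ∈ tsupport c.φ := by
      refine closure_mono ?_ hx
      intro y hy h
      rw [Function.mem_support, h, zero_smul] at hy
      exact hy rfl
    exact c.cont.continuousAt.smul (hu x (hsub h2))
  refine ⟨c.avg ρ u, c.continuous_avg ρ u hcu, fun g x => c.avg_smul ρ u g x, fun x hx => ?_⟩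
  have := c.avg_mem ρ u (convex_singleton (f x)) (x := x) (fun g hg => by
    have h1 : (g : M.deck) • x ∈ K' :=
      interior_subset (hsub (subset_tsupport _ hg))
    have h2 : u (g • x) = f ((g : M.deck) • x) := by
      have h3 : u ((g : M.deck) • x) = k ⟨(g : M.deck) • x, h1⟩ := by simp [u, h1]
      have h4 := DFunLike.congr_fun hk ⟨⟨(g : M.deck) • x, h1⟩, hZinv g g.2 x hx⟩
      rw [show g • x = (g : M.deck) • x from rfl, h3]
      simpa [f'] using h4
    rw [h2, hfe g x hx, Set.mem_singleton_iff, ← AffineEquiv.trans_apply, ← AffineEquiv.mul_def,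
      ← map_mul, inv_mul_cancel, map_one]
    rfl)
  exact this

end Pool.Agent.Hhelper78.Chern
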