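import Mathlib

/-!
# Centroids and recession directions
-/

namespace Pool.Agent.Hhelper78.Chern

open Topology Set MeasureTheory

section

variable {V : Type*} [NormedAddCommGroup V] [NormedSpace ℝ V] [FiniteDimensional ℝ V]

omit [FiniteDimensional ℝ V] in
lemma affineMap_eq (g : V →ᵃ[ℝ] V) (x : V) : g x = g.linear x + g 0 := by
  have := g.map_vadd (0 : V) x
  simpa using this

lemma centroid_of_interior {S : Set V} (hS : IsCompact S) (hi : (interior S).Nonempty) :
    ∃ c : V, ∀ g : V →ᵃ[ℝ] V, g '' S = S → g c = c := by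
  let _ : MeasurableSpace V := borel V
  have : BorelSpace V := ⟨rfl⟩
  let μ : Measure V := Measure.addHaar
  have hfin : μ S ≠ ⊤ := hS.measure_lt_top.ne
  have hpos : μ S ≠ 0 := (Measure.measure_pos_of_nonempty_interior μ hi).ne'
  have hr : μ.real S ≠ 0 := by
    rw [Measure.real, ENNReal.toReal_ne_zero]
    exact ⟨hpos, hfin⟩
  refine ⟨(μ.real S)⁻¹ • ∫ x in S, x ∂μ, fun g hg => ?_⟩
  have h1 : (g.linear '' S) = (fun y => y + g 0) ⁻¹' (g '' S) := by
    ext y
    constructor
    · rintro ⟨x, hx, rfl⟩
      exact ⟨x, hx, affineMap_eq g x⟩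
    · rintro ⟨x, hx, h⟩
      refine ⟨x, hx, ?_⟩
      rw [affineMap_eq] at h
      exact add_right_cancel h
  have h2 : μ (g.linear '' S) = μ S := by
    rw [h1, measure_preimage_add_right, hg]
  have hdet : |LinearMap.det g.linear| = 1 := by
    rw [Measure.addHaar_image_linearMap] at h2
    have h3 : ENNReal.ofReal |LinearMap.det g.linear| = 1 := by
      have h4 : ENNReal.ofReal |LinearMap.det g.linear| * μ S = 1 * μ S := by rw [h2, one_mul]
      exact (ENNReal.mul_left_inj hpos hfin).mp h4
    have := congrArg ENNReal.toReal h3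
    rwa [ENNReal.toReal_ofReal (abs_nonneg _), ENNReal.toReal_one] at this
  have hdet0 : LinearMap.det g.linear ≠ 0 := by
    intro h
    rw [h, abs_zero] at hdet
    exact zero_ne_one hdet
  have hinj : InjOn g S := by
    intro x _ y _ hxy
    rw [affineMap_eq g x, affineMap_eq g y] at hxy
    have h3 := add_right_cancel hxy
    have h4 : Function.Injective g.linear :=
      (LinearMap.equivOfDetNeZero g.linear hdet0).injective
    exact h4 h3
  let L : V →L[ℝ] V := LinearMap.toContinuousLinearMap g.linear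
  have hd : ∀ x ∈ S, HasFDerivWithinAt g L S x := by
    intro x _
    have h3 : (g : V → V) = fun x => L x + g 0 := by
      funext x; exact affineMap_eq g x
    rw [h3]
    exact (L.hasFDerivWithinAt).add_const _
  have h3 := integral_image_eq_integral_abs_det_fderiv_smul μ hS.measurableSet hd hinj
    (fun x => x)
  have hLdet : L.det = LinearMap.det g.linear := rfl
  simp only [hg, hLdet, hdet, one_smul] at h3
  have hint : IntegrableOn (fun x : V => x) S μ := continuousOn_id.integrableOn_compact hS
  have hint2 : IntegrableOn (fun x : V => L x) S μ :=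
    L.continuous.continuousOn.integrableOn_compact hS
  have h4 : ∫ x in S, g x ∂μ = L (∫ x in S, x ∂μ) + μ.real S • g 0 := by
    have h5 : (g : V → V) = fun x => L x + g 0 := by
      funext x; exact affineMap_eq g x
    have hconst : IntegrableOn (fun _ : V => g 0) S μ := integrableOn_const hfin
    calc ∫ x in S, g x ∂μ = ∫ x in S, (L x + g 0) ∂μ := by rw [← h5]
      _ = ∫ x in S, L x ∂μ + ∫ x in S, g 0 ∂μ := integral_add hint2 hconst
      _ = _ := by
        rw [setIntegral_const, L.integral_comp_comm hint]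
  have h6 : L (∫ x in S, x ∂μ) = (∫ x in S, x ∂μ) - μ.real S • g 0 := by
    apply eq_sub_of_add_eq
    rw [← h4, ← h3]
  rw [affineMap_eq, map_smul]
  change (μ.real S)⁻¹ • L (∫ x in S, x ∂μ) + g 0 = _
  rw [h6, smul_sub, smul_smul, inv_mul_cancel₀ hr, one_smul, sub_add_cancel]

/-- a convex set has nonempty interior in its affine span -/
lemma interior_slice {S : Set V} (hconv : Convex ℝ S) {s0 : V} (hs0 : s0 ∈ S) :
    (interior {w : vectorSpan ℝ S | s0 + (w : V) ∈ S}).Nonempty := by
  let W : Submodule ℝ V := vectorSpan ℝ S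
  have hW : ∀ x ∈ S, ∀ y ∈ S, x - y ∈ W := fun x hx y hy => vsub_mem_vectorSpan ℝ hx hy
  let f : W →ᵃ[ℝ] V :=
    { toFun := fun w => s0 + w
      linear := W.subtype
      map_vadd' := fun p v => by
        simp only [vadd_eq_add, Submodule.coe_add, Submodule.subtype_apply]; abel }
  have hfa : ∀ w, f w = s0 + w := fun _ => rfl
  let S' : Set W := f ⁻¹' S
  have hfS' : f '' S' = S := by
    ext x
    constructor
    · rintro ⟨w, hw, rfl⟩
      exact hw
    · intro hx
      refine ⟨⟨x - s0, hW x hx s0 hs0⟩, ?_, ?_⟩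
      · change s0 + (x - s0) ∈ S
        rwa [add_sub_cancel]
      · rw [hfa]
        change s0 + (x - s0) = x
        rw [add_sub_cancel]
  have hS'conv : Convex ℝ S' := hconv.affine_preimage f
  have hS'ne : S'.Nonempty := ⟨0, by change s0 + ((0 : W) : V) ∈ S; simpa using hs0⟩
  change (interior S').Nonempty
  rw [hS'conv.interior_nonempty_iff_affineSpan_eq_top,
    AffineSubspace.affineSpan_eq_top_iff_vectorSpan_eq_top_of_nonempty ℝ W W hS'ne]
  have h1 := f.map_vectorSpan (s := S')
  rw [hfS'] at h1
  have h2 : Submodule.map W.subtype (vectorSpan ℝ S') = Submodule.map W.subtype ⊤ := by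
    rw [Submodule.map_subtype_top]
    exact h1
  exact Submodule.map_injective_of_injective W.injective_subtype h2

/-- a dense convex set is everything -/
lemma convex_dense {S : Set V} (hconv : Convex ℝ S) (h : closure S = univ) : S = univ := by
  have hne : S.Nonempty := by
    rw [← closure_nonempty_iff, h]
    exact univ_nonempty
  have hspan : affineSpan ℝ S = ⊤ := by
    have h1 : IsClosed (affineSpan ℝ S : Set V) := (affineSpan ℝ S).closed_of_finiteDimensional
    have h2 : closure S ⊆ (affineSpan ℝ S : Set V) :=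
      closure_minimal (subset_affineSpan ℝ S) h1
    rw [h] at h2
    exact SetLike.coe_injective (eq_univ_of_univ_subset h2)
  have hi : (interior S).Nonempty := hconv.interior_nonempty_iff_affineSpan_eq_top.mpr hspan
  have h3 := hconv.interior_closure_eq_interior_of_nonempty_interior hi
  rw [h, interior_univ] at h3
  exact eq_univ_of_univ_subset (h3.le.trans interior_subset)

/-- a common fixed point of all affine maps preserving a compact convex set -/
lemma centroid {S : Set V} (hS : IsCompact S) (hconv : Convex ℝ S) (hne : S.Nonempty) :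
    ∃ c : V, ∀ g : V →ᵃ[ℝ] V, g '' S = S → g c = c := by
  obtain ⟨s0, hs0⟩ := hne
  let W : Submodule ℝ V := vectorSpan ℝ S
  have hW : ∀ x ∈ S, ∀ y ∈ S, x - y ∈ W := fun x hx y hy => vsub_mem_vectorSpan ℝ hx hy
  let f : W →ᵃ[ℝ] V :=
    { toFun := fun w => s0 + w
      linear := W.subtype
      map_vadd' := fun p v => by simp only [vadd_eq_add, Submodule.coe_add, Submodule.subtype_apply]; abel }
  have hfa : ∀ w, f w = s0 + w := fun _ => rfl
  have hfc : Continuous f := by
    have : (f : W → V) = fun w : W => s0 + (w : V) := rfl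
    rw [this]; fun_prop
  let S' : Set W := f ⁻¹' S
  have hfS' : f '' S' = S := by
    ext x
    constructor
    · rintro ⟨w, hw, rfl⟩
      exact hw
    · intro hx
      refine ⟨⟨x - s0, hW x hx s0 hs0⟩, ?_, ?_⟩
      · change s0 + (x - s0) ∈ S
        rwa [add_sub_cancel]
      · rw [hfa]
        change s0 + (x - s0) = x
        rw [add_sub_cancel]
  have hS'c : IsCompact S' := by
    have hemb : Topology.IsClosedEmbedding f := by
      have h1 : (f : W → V) = (Homeomorph.addLeft s0) ∘ (Subtype.val : W → V) := rfl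
      rw [h1]
      exact (Homeomorph.addLeft s0).isClosedEmbedding.comp
        (W.closed_of_finiteDimensional.isClosedEmbedding_subtypeVal)
    exact hemb.isCompact_preimage hS
  have hS'conv : Convex ℝ S' := hconv.affine_preimage f
  have hS'ne : S'.Nonempty := ⟨0, by change s0 + ((0 : W) : V) ∈ S; simpa using hs0⟩
  have hi : (interior S').Nonempty := by
    rw [hS'conv.interior_nonempty_iff_affineSpan_eq_top,
      AffineSubspace.affineSpan_eq_top_iff_vectorSpan_eq_top_of_nonempty ℝ W W hS'ne]
    have h1 := f.map_vectorSpan (s := S')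
    rw [hfS'] at h1
    have h2 : Submodule.map W.subtype (vectorSpan ℝ S') = Submodule.map W.subtype ⊤ := by
      rw [Submodule.map_subtype_top]
      exact h1
    exact Submodule.map_injective_of_injective W.injective_subtype h2
  obtain ⟨c, hc⟩ := centroid_of_interior hS'c hi
  refine ⟨s0 + c, fun g hg => ?_⟩
  have hgW : ∀ w ∈ W, g.linear w ∈ W := by
    intro w hw
    have h1 := g.map_vectorSpan (s := S)
    rw [hg] at h1
    have h2 : g.linear w ∈ Submodule.map g.linear (vectorSpan ℝ S) := Submodule.mem_map_of_mem hw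
    rwa [h1] at h2
  have hgs0 : g s0 - s0 ∈ W := hW _ (by rw [← hg]; exact ⟨s0, hs0, rfl⟩) _ hs0
  have hgadd : ∀ w : V, g (s0 + w) = g s0 + g.linear w := by
    intro w
    have := g.map_vadd s0 w
    rw [vadd_eq_add, vadd_eq_add] at this
    rw [add_comm s0 w, this, add_comm]
  have hmem : ∀ w : W, g (s0 + w) - s0 ∈ W := by
    intro w
    rw [hgadd]
    have : g s0 + g.linear w - s0 = (g s0 - s0) + g.linear w := by abel
    rw [this]
    exact W.add_mem hgs0 (hgW w w.2)
  let g' : W →ᵃ[ℝ] W :=
    { toFun := fun w => ⟨g (s0 + w) - s0, hmem w⟩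
      linear := g.linear.restrict hgW
      map_vadd' := fun p v => by
        ext
        simp only [vadd_eq_add, Submodule.coe_add, LinearMap.coe_restrict_apply]
        rw [hgadd, hgadd, map_add]
        abel }
  have hg'a : ∀ w : W, s0 + (g' w : V) = g (s0 + w) := by
    intro w
    change s0 + (g (s0 + w) - s0) = _
    rw [add_sub_cancel]
  have hg' : g' '' S' = S' := by
    ext w
    constructor
    · rintro ⟨w, hw, rfl⟩
      change s0 + (g' w : V) ∈ S
      rw [hg'a, ← hg]
      exact ⟨_, hw, rfl⟩
    · intro hw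
      have h1 : s0 + (w : V) ∈ g '' S := by rw [hg]; exact hw
      obtain ⟨x, hx, hgx⟩ := h1
      refine ⟨⟨x - s0, hW x hx s0 hs0⟩, ?_, ?_⟩
      · change s0 + (x - s0) ∈ S
        rwa [add_sub_cancel]
      · have h2 := hg'a ⟨x - s0, hW x hx s0 hs0⟩
        simp only [add_sub_cancel, hgx] at h2
        exact Subtype.ext (add_left_cancel h2)
  have h3 := hg'a c
  rw [hc g' hg'] at h3
  exact h3.symm

/-- a closed convex set without recession directions is bounded -/
lemma bounded_of_recession {S : Set V} (hc : IsClosed S) (hconv : Convex ℝ S)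
    (hne : S.Nonempty) (h : ∀ v, (∀ x ∈ S, x + v ∈ S) → v = 0) : Bornology.IsBounded S := by
  obtain ⟨x0, hx0⟩ := hne
  by_contra hb
  have h1 : ∀ n : ℕ, ∃ x ∈ S, (n : ℝ) + 1 < ‖x - x0‖ := by
    intro n
    by_contra hcon
    push Not at hcon
    apply hb
    refine (Metric.isBounded_closedBall (x := x0) (r := (n : ℝ) + 1)).subset ?_
    intro x hx
    rw [Metric.mem_closedBall, dist_eq_norm]
    exact hcon x hx
  choose x hxS hxn using h1
  have hr : ∀ n, 0 < ‖x n - x0‖ := fun n => lt_trans (by positivity) (hxn n)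
  let u : ℕ → V := fun n => ‖x n - x0‖⁻¹ • (x n - x0)
  have hu : ∀ n, u n ∈ Metric.sphere (0 : V) 1 := by
    intro n
    rw [mem_sphere_zero_iff_norm, norm_smul, norm_inv, norm_norm, inv_mul_cancel₀ (hr n).ne']
  obtain ⟨a, ha, φ, hφ, hlim⟩ := (isCompact_sphere (0 : V) 1).tendsto_subseq hu
  have ha0 : a = 0 := by
    apply h
    intro y hy
    have hinv : Filter.Tendsto (fun n => ‖x (φ n) - x0‖⁻¹) Filter.atTop (𝓝 0) := by
      refine squeeze_zero (fun n => (inv_pos.mpr (hr _)).le) (g := fun n : ℕ => 1 / ((n : ℝ) + 1))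
        ?_ tendsto_one_div_add_atTop_nhds_zero_nat
      intro n
      rw [one_div]
      refine inv_anti₀ (by positivity) ?_
      have h2 : (n : ℝ) ≤ φ n := by exact_mod_cast hφ.id_le n
      linarith [hxn (φ n)]
    have h3 : Filter.Tendsto (fun n => y + (u (φ n) + ‖x (φ n) - x0‖⁻¹ • (x0 - y)))
        Filter.atTop (𝓝 (y + (a + (0 : ℝ) • (x0 - y)))) :=
      (hlim.add (hinv.smul_const _)).const_add y
    rw [zero_smul, add_zero] at h3
    refine hc.mem_of_tendsto h3 (Filter.Eventually.of_forall fun n => ?_)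
    have h4 : y + (u (φ n) + ‖x (φ n) - x0‖⁻¹ • (x0 - y)) =
        (1 - ‖x (φ n) - x0‖⁻¹) • y + ‖x (φ n) - x0‖⁻¹ • x (φ n) := by
      simp only [u]
      module
    rw [h4]
    have h5 : ‖x (φ n) - x0‖⁻¹ ≤ 1 := by
      apply inv_le_one_of_one_le₀
      have : (0 : ℝ) ≤ (φ n : ℝ) := Nat.cast_nonneg _
      linarith [hxn (φ n)]
    exact hconv hy (hxS _) (by linarith) (inv_pos.mpr (hr _)).le (by ring)
  rw [ha0] at ha
  simp at ha

end

end Pool.Agent.Hhelper78.Chern
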