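import Mathlib

/-!
# Closed affine manifolds, given by developing pairs
-/

namespace Pool.Agent.Hhelper78.Chern

/-- A closed affine manifold modelled on the Euclidean space `E`, given by a developing pair: the
manifold is the quotient of `cover` by the free, properly discontinuous and cocompact action of
the group `deck`; its affine structure is given by the local homeomorphism `dev` (developing map),
which is equivariant for the holonomy homomorphism `hol` from `deck` to the affine group of `E`. -/
structure ClosedAffineManifold (E : Type) [NormedAddCommGroup E] [InnerProductSpace ℝ E] where
  /-- a regular covering space of the manifold -/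
  cover : Type
  /-- the group of deck transformations -/
  deck : Type
  [topologicalSpace : TopologicalSpace cover]
  [t2Space : T2Space cover]
  [locallyCompactSpace : LocallyCompactSpace cover]
  [group : Group deck]
  [mulAction : MulAction deck cover]
  /-- each deck transformation is continuous -/
  continuous_smul : ∀ g : deck, Continuous fun x : cover => g • x
  /-- the action is free -/
  free : ∀ (g : deck) (x : cover), g • x = x → g = 1
  /-- the action is properly discontinuous -/
  proper : ∀ K : Set cover, IsCompact K → {g : deck | ∃ x ∈ K, g • x ∈ K}.Finite
  /-- the quotient is compact -/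
  cocompact : ∃ K : Set cover, IsCompact K ∧ ∀ x, ∃ g : deck, g • x ∈ K
  /-- the developing map -/
  dev : cover → E
  /-- the developing map is a local homeomorphism -/
  isLocalHomeomorph_dev : IsLocalHomeomorph dev
  /-- the holonomy -/
  hol : deck →* (E ≃ᵃ[ℝ] E)
  /-- the developing map is equivariant -/
  dev_smul : ∀ (g : deck) (x : cover), dev (g • x) = hol g (dev x)

attribute [instance] ClosedAffineManifold.topologicalSpace ClosedAffineManifold.t2Space
  ClosedAffineManifold.locallyCompactSpace ClosedAffineManifold.group
  ClosedAffineManifold.mulAction

variable {E : Type} [NormedAddCommGroup E] [InnerProductSpace ℝ E]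

/-- The closed affine manifold has, after passing to a finite cover, a nowhere vanishing
continuous vector field: a continuous map from `cover` to `E` without zeros which is equivariant
under a finite index subgroup of the deck group (acting on `E` by the linear holonomy). -/
def VirtuallyNonvanishing (M : ClosedAffineManifold E) : Prop :=
  ∃ H : Subgroup M.deck, H.FiniteIndex ∧ ∃ X : M.cover → E, Continuous X ∧
    (∀ g ∈ H, ∀ x, X (g • x) = (M.hol g).linear (X x)) ∧ ∀ x, X x ≠ 0

/-- `M'` is (isomorphic to) the closed affine manifold over the affine subspace `p + L` of `E`:
its covering space is the set of all `x` with `M.dev x ∈ p + L`, its deck group is the subgroup `H`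
of `M.deck`, its developing map is `M.dev - p` and its holonomy is the restriction of the holonomy
of `H` to `p + L`, written in `L`. -/
def IsOver (M : ClosedAffineManifold E) (H : Subgroup M.deck) (p : E) (L : Submodule ℝ E)
    (M' : ClosedAffineManifold L) : Prop :=
  ∃ (φ : M'.cover → M.cover) (ψ : M'.deck ≃* H), Topology.IsEmbedding φ ∧
    Set.range φ = {x | M.dev x - p ∈ L} ∧ (∀ g x, φ (g • x) = (ψ g : M.deck) • φ x) ∧
    (∀ x, (M'.dev x : E) = M.dev (φ x) - p) ∧
    ∀ g v, (M'.hol g v : E) = M.hol (ψ g) (p + v) - p

end Pool.Agent.Hhelper78.Chern
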