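import Pool.Agent.Hhelper78.Chern.Basic

/-!
# One-dimensional closed affine manifolds
-/

namespace Pool.Agent.Hhelper78.Chern

open Topology

variable {E : Type} [NormedAddCommGroup E] [InnerProductSpace ℝ E]

lemma linear_eq_det_smul (hE : Module.finrank ℝ E = 1) (f : E →ₗ[ℝ] E) (w : E) :
    f w = LinearMap.det f • w := by
  obtain ⟨v, hv, hvs⟩ := finrank_eq_one_iff'.mp hE
  obtain ⟨c, hc⟩ := hvs (f v)
  have h1 : f = c • LinearMap.id := by
    ext w
    obtain ⟨d, rfl⟩ := hvs w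
    rw [map_smul, ← hc]
    simp [smul_smul, mul_comm]
  have h2 : LinearMap.det f = c := by
    rw [h1, LinearMap.det_smul, hE]
    simp
  rw [h2]
  nth_rewrite 1 [h1]
  rfl

theorem vnv_of_finrank_one [FiniteDimensional ℝ E] (hE : Module.finrank ℝ E = 1)
    (M : ClosedAffineManifold E) : VirtuallyNonvanishing M := by
  let D : M.deck →* ℝˣ := LinearEquiv.det.comp ((AffineEquiv.linearHom (k := ℝ) (P₁ := E)).comp M.hol)
  let s : M.deck →* SignTypeˣ := (Units.map (signHom (α := ℝ)).toMonoidHom).comp D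
  have hfin : Finite SignTypeˣ := inferInstance
  have hH : s.ker.FiniteIndex := Subgroup.finiteIndex_ker s
  have key : ∀ g ∈ s.ker, 0 < LinearMap.det ((M.hol g).linear : E →ₗ[ℝ] E) := by
    intro g hg
    rw [MonoidHom.mem_ker] at hg
    have h1 : ((s g : SignTypeˣ) : SignType) = 1 := by rw [hg]; rfl
    have h2 : SignType.sign (D g : ℝ) = 1 := h1
    have h3 := sign_eq_one_iff.mp h2
    have h4 : (D g : ℝ) = LinearMap.det ((M.hol g).linear : E →ₗ[ℝ] E) :=
      LinearEquiv.coe_det _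
    rwa [h4] at h3
  obtain ⟨v, hv, hvs⟩ := finrank_eq_one_iff'.mp hE
  refine vnv_of_convex M s.ker hH {w | ∃ t : ℝ, 0 < t ∧ w = t • v} ?_ ⟨v, 1, one_pos, by simp⟩ ?_ ?_
  · rintro _ ⟨t, ht, rfl⟩ _ ⟨t', ht', rfl⟩ a b ha hb hab
    refine ⟨a * t + b * t', ?_, by rw [add_smul, mul_smul, mul_smul]⟩
    rcases ha.eq_or_lt with rfl | ha
    · have : b = 1 := by linarith
      subst this
      simpa using ht'
    · have := mul_pos ha ht
      have := mul_nonneg hb ht'.le
      linarith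
  · rintro ⟨t, ht, h⟩
    rcases smul_eq_zero.mp h.symm with h | h
    · exact ht.ne' h
    · exact hv h
  · rintro g hg _ ⟨t, ht, rfl⟩
    refine ⟨LinearMap.det ((M.hol g).linear : E →ₗ[ℝ] E) * t, mul_pos (key g hg) ht, ?_⟩
    have := linear_eq_det_smul hE ((M.hol g).linear : E →ₗ[ℝ] E) (t • v)
    rw [mul_smul, ← this]
    rfl

end Pool.Agent.Hhelper78.Chern
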