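import Pool.Agent.Hhelper78.Chern.Sub
import Pool.Agent.Hhelper78.Chern.Centroid

/-!
# Invariant convex sets
-/

namespace Pool.Agent.Hhelper78.Chern

open Topology Set
open scoped Pointwise

section recession

variable {E : Type} [NormedAddCommGroup E] [InnerProductSpace ℝ E]

lemma rec_add {D : Set E} {v w : E} (hv : ∀ x ∈ D, x + v ∈ D) (hw : ∀ x ∈ D, x + w ∈ D) :
    ∀ x ∈ D, x + (v + w) ∈ D := by
  intro x hx
  rw [← add_assoc]
  exact hw _ (hv x hx)

lemma rec_nsmul {D : Set E} {v : E} (hv : ∀ x ∈ D, x + v ∈ D) (n : ℕ) :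
    ∀ x ∈ D, x + (n : ℝ) • v ∈ D := by
  induction n with
  | zero => intro x hx; simpa using hx
  | succ n ih =>
    have := rec_add ih hv
    intro x hx
    have h1 := this x hx
    rw [Nat.cast_succ, add_smul, one_smul]
    exact h1

lemma rec_smul {D : Set E} (hD : Convex ℝ D) {v : E} (hv : ∀ x ∈ D, x + v ∈ D) {t : ℝ}
    (ht : 0 ≤ t) : ∀ x ∈ D, x + t • v ∈ D := by
  intro x hx
  obtain ⟨n, hn⟩ := exists_nat_gt t
  have hnpos : (0 : ℝ) < n := lt_of_le_of_lt ht hn
  have h1 := rec_nsmul hv n x hx
  have h2 : x + t • v = (1 - t / n) • x + (t / n) • (x + (n : ℝ) • v) := by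
    rw [smul_add, smul_smul, div_mul_cancel₀ _ hnpos.ne', sub_smul, one_smul]
    abel
  rw [h2]
  have h3 : t / n ≤ 1 := by rw [div_le_one hnpos]; exact hn.le
  exact hD hx h1 (by linarith) (div_nonneg ht hnpos.le) (by ring)

end recession

lemma gauge_map_le {V : Type*} [NormedAddCommGroup V] [NormedSpace ℝ V] {B : Set V}
    (hB : B ∈ 𝓝 (0 : V)) (l : V →ₗ[ℝ] V) (hl : ∀ b ∈ B, l b ∈ B) (v : V) :
    gauge B (l v) ≤ gauge B v := by
  unfold gauge
  refine csInf_le_csInf ⟨0, fun r hr => hr.1.le⟩ ?_ ?_
  · have := (absorbent_nhds_zero hB).gauge_set_nonempty (x := v)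
    exact this
  · rintro r ⟨hr, b, hb, rfl⟩
    exact ⟨hr, l b, hl b hb, by simp⟩

variable {E : Type} [NormedAddCommGroup E] [InnerProductSpace ℝ E] [FiniteDimensional ℝ E]

/-- if `f` is an invariant function of the developing map, and any open set contains with each
of its points another one with a larger value, the manifold is empty -/
lemma no_max (M : ClosedAffineManifold E) (H : Subgroup M.deck) (hH : H.FiniteIndex)
    (f : E → ℝ) (hf : Continuous f) (hinv : ∀ g ∈ H, ∀ x, f (M.hol g (M.dev x)) = f (M.dev x))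
    (hmax : ∀ y, ¬ IsLocalMax f y) (x0 : M.cover) : False := by
  obtain ⟨K, hK, hcov, -⟩ := exists_cut M H hH
  have hne : K.Nonempty := by
    obtain ⟨g, hg⟩ := hcov x0
    exact ⟨_, hg⟩
  obtain ⟨x1, hx1, hx1max⟩ := hK.exists_isMaxOn hne
    (hf.comp M.isLocalHomeomorph_dev.continuous).continuousOn
  have hglob : ∀ x, f (M.dev x) ≤ f (M.dev x1) := by
    intro x
    obtain ⟨g, hg⟩ := hcov x
    have h1 := hx1max hg
    have h2 : f (M.dev ((g : M.deck) • x)) ≤ f (M.dev x1) := h1
    rwa [M.dev_smul, hinv g g.2] at h2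
  apply hmax (M.dev x1)
  have h3 : range M.dev ∈ 𝓝 (M.dev x1) :=
    M.isLocalHomeomorph_dev.isOpenMap.isOpen_range.mem_nhds ⟨x1, rfl⟩
  filter_upwards [h3]
  rintro _ ⟨x, rfl⟩
  exact hglob x

/-- a manifold without vector field is nonempty -/
lemma nonempty_cover {M : ClosedAffineManifold E} (hM : ¬ VirtuallyNonvanishing M) :
    Nonempty M.cover := by
  by_contra hne
  rw [not_nonempty_iff] at hne
  exact hM ⟨⊤, inferInstance, fun _ => 0, continuous_const, fun _ _ x => hne.elim x,
    fun x => hne.elim x⟩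

/-- A nonempty closed convex set invariant under the holonomy of a finite index subgroup gives
either a vector field or an invariant affine subspace parallel to the space of directions in
which it is unbounded. -/
theorem closed_convex (M : ClosedAffineManifold E) (H : Subgroup M.deck) (hH : H.FiniteIndex)
    (D : Set E) (hc : IsClosed D) (hconv : Convex ℝ D) (hne : D.Nonempty)
    (hinv : ∀ g ∈ H, ∀ x ∈ D, M.hol g x ∈ D) (hM : ¬ VirtuallyNonvanishing M) :
    ∃ (p : E) (L : Submodule ℝ E), SubInv M H p L ∧ (∀ v, v ∈ L ↔ ∀ x ∈ D, x + v ∈ D) ∧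
      ((interior D).Nonempty → L = ⊤) := by
  classical
  -- the linear holonomy preserves the recession cone
  have hrecinv : ∀ g ∈ H, ∀ v, (∀ x ∈ D, x + v ∈ D) →
      ∀ x ∈ D, x + (M.hol g).linear v ∈ D := by
    intro g hg v hv x hx
    have h1 := hinv g hg _ (hv _ (hinv g⁻¹ (H.inv_mem hg) x hx))
    have h2 : M.hol g (M.hol g⁻¹ x + v) = x + (M.hol g).linear v := by
      have := (M.hol g).map_vadd (M.hol g⁻¹ x) v
      rw [vadd_eq_add, vadd_eq_add, hol_hol_inv] at this
      rw [add_comm (M.hol g⁻¹ x), this, add_comm]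
    rwa [h2] at h1
  -- the recession cone is symmetric
  have hsymm : ∀ v, (∀ x ∈ D, x + v ∈ D) → ∀ x ∈ D, x + -v ∈ D := by
    by_contra hcon
    push Not at hcon
    obtain ⟨v, hv, hv'⟩ := hcon
    apply hM
    refine vnv_of_convex M H hH {v | (∀ x ∈ D, x + v ∈ D) ∧ ¬ ∀ x ∈ D, x + -v ∈ D} ?_
      ⟨v, hv, fun h => ?_⟩ ?_ ?_
    · rintro a ⟨ha, ha'⟩ b ⟨hb, hb'⟩ s t hs ht hst
      refine ⟨rec_add (rec_smul hconv ha hs) (rec_smul hconv hb ht), fun h => ?_⟩
      rcases hs.eq_or_lt with rfl | hs
      · have : t = 1 := by linarith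
        subst this
        apply hb'
        simpa using h
      · apply ha'
        have h1 := rec_add h (rec_smul hconv hb ht)
        have h2 : -(s • a + t • b) + t • b = s • (-a) := by
          rw [smul_neg]; abel
        rw [h2] at h1
        have h3 := rec_smul hconv h1 (inv_nonneg.mpr hs.le)
        rwa [smul_smul, inv_mul_cancel₀ hs.ne', one_smul] at h3
    · obtain ⟨x, hx, hx'⟩ := hv'
      exact hx' (h x hx)
    · rintro ⟨h1, h2⟩
      apply h2
      rwa [neg_zero]
    · rintro g hg w ⟨hw, hw'⟩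
      refine ⟨hrecinv g hg w hw, fun h => hw' ?_⟩
      have h1 := hrecinv g⁻¹ (H.inv_mem hg) _ h
      rwa [map_neg, lin_inv_lin] at h1
  -- the linear space of directions
  let L : Submodule ℝ E :=
    { carrier := {v | ∀ x ∈ D, x + v ∈ D}
      add_mem' := fun ha hb => rec_add ha hb
      zero_mem' := by intro x hx; simpa using hx
      smul_mem' := by
        intro c v hv
        rcases le_total 0 c with h | h
        · exact rec_smul hconv hv h
        · have h1 := hsymm _ (rec_smul hconv hv (neg_nonneg.mpr h))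
          have h2 : -(-c • v) = c • v := by rw [neg_smul, neg_neg]
          rwa [h2] at h1 }
  have hL : ∀ v, v ∈ L ↔ ∀ x ∈ D, x + v ∈ D := fun v => Iff.rfl
  -- the projection to the orthogonal complement
  let P : E →L[ℝ] Lᗮ := Lᗮ.orthogonalProjectionOnto
  have hPsub : ∀ x, x - (P x : E) ∈ L := by
    intro x
    have h1 : x - (P x : E) ∈ Lᗮᗮ := Lᗮ.sub_starProjection_mem_orthogonal x
    rwa [Submodule.orthogonal_orthogonal] at h1
  have hPL : ∀ x, P x = 0 → x ∈ L := by
    intro x hx
    have := hPsub x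
    rw [hx] at this
    simpa using this
  have hPL' : ∀ x ∈ L, P x = 0 := by
    intro x hx
    apply Submodule.orthogonalProjectionOnto_eq_zero_iff.mpr
    rwa [Submodule.orthogonal_orthogonal]
  have hPid : ∀ v : Lᗮ, P v = v := fun v => Lᗮ.orthogonalProjectionOnto_mem_subspace_eq_self v
  have hPD : ∀ x ∈ D, (P x : E) ∈ D := by
    intro x hx
    have h1 := L.neg_mem (hPsub x) x hx
    have h2 : x + -(x - (P x : E)) = P x := by abel
    rwa [h2] at h1
  let S : Set Lᗮ := {v | (v : E) ∈ D}
  have hSc : IsClosed S := hc.preimage continuous_subtype_val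
  have hSconv : Convex ℝ S := hconv.linear_preimage Lᗮ.subtype
  have hSne : S.Nonempty := by
    obtain ⟨x, hx⟩ := hne
    exact ⟨P x, hPD x hx⟩
  have hSb : Bornology.IsBounded S := by
    refine bounded_of_recession hSc hSconv hSne fun v hv => ?_
    have h1 : (v : E) ∈ L := by
      intro x hx
      have h2 := hv (P x) (hPD x hx)
      have h3 : ((P x + v : Lᗮ) : E) ∈ D := h2
      have h4 := hPsub x _ h3
      have h5 : ((P x + v : Lᗮ) : E) + (x - (P x : E)) = x + v := by
        rw [Submodule.coe_add]; abel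
      rwa [h5] at h4
    have h6 := hPL' _ h1
    rwa [hPid] at h6
  have hScomp : IsCompact S := Metric.isCompact_of_isClosed_isBounded hSc hSb
  obtain ⟨c, hcfix⟩ := centroid hScomp hSconv hSne
  have hLinL : ∀ g ∈ H, ∀ v ∈ L, (M.hol g).linear v ∈ L := fun g hg v hv => hrecinv g hg v hv
  have hPcomp : ∀ g ∈ H, ∀ x, P (M.hol g (P x)) = P (M.hol g x) := by
    intro g hg x
    have h1 : M.hol g x - M.hol g (P x) ∈ L := by
      rw [aff_sub]
      exact hLinL g hg _ (hPsub x)
    have h2 := hPL' _ h1
    rw [map_sub, sub_eq_zero] at h2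
    exact h2.symm
  have hfix : ∀ g ∈ H, P (M.hol g (c : E)) = c := by
    intro g hg
    let a : Lᗮ →ᵃ[ℝ] Lᗮ :=
      (P : E →ₗ[ℝ] Lᗮ).toAffineMap.comp
        (((M.hol g).toAffineMap).comp (Lᗮ.subtype).toAffineMap)
    have ha : ∀ v : Lᗮ, a v = P (M.hol g (v : E)) := fun v => rfl
    have haS : a '' S = S := by
      ext w
      constructor
      · rintro ⟨v, hv, rfl⟩
        rw [ha]
        exact hPD _ (hinv g hg _ hv)
      · intro hw
        refine ⟨P (M.hol g⁻¹ (w : E)), hPD _ (hinv _ (H.inv_mem hg) _ hw), ?_⟩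
        rw [ha, hPcomp g hg, hol_hol_inv, hPid]
    exact hcfix a haS
  refine ⟨c, L, ?_, hL, ?_⟩
  swap
  · intro hint
    by_contra hLtop
    -- a nonzero vector orthogonal to `L`
    obtain ⟨w0, hw0⟩ : ∃ w : Lᗮ, w ≠ 0 := by
      by_contra hcon
      push Not at hcon
      apply hLtop
      rw [← Submodule.orthogonal_eq_bot_iff, Submodule.eq_bot_iff]
      intro x hx
      exact congrArg Subtype.val (hcon ⟨x, hx⟩)
    let B : Set Lᗮ := S - S
    have hBconv : Convex ℝ B := hSconv.sub hSconv
    have hB0 : B ∈ 𝓝 (0 : Lᗮ) := by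
      obtain ⟨x, hx⟩ := hint
      have h1 : (P x : E) ∈ interior D := by
        have hopen : IsOpen ((fun y : E => y + (x - (P x : E))) ⁻¹' interior D) :=
          isOpen_interior.preimage (by fun_prop)
        have hsub : (fun y : E => y + (x - (P x : E))) ⁻¹' interior D ⊆ D := by
          intro y hy
          have h2 := L.neg_mem (hPsub x) _ (interior_subset hy)
          have h3 : y + (x - (P x : E)) + -(x - (P x : E)) = y := by abel
          rwa [h3] at h2
        refine interior_maximal hsub hopen ?_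
        change (P x : E) + (x - (P x : E)) ∈ interior D
        rwa [add_sub_cancel]
      have h4 : IsOpen {v : Lᗮ | ((v + P x : Lᗮ) : E) ∈ interior D} :=
        isOpen_interior.preimage (by fun_prop)
      refine Filter.mem_of_superset (h4.mem_nhds ?_) ?_
      · change ((0 + P x : Lᗮ) : E) ∈ interior D
        rwa [zero_add]
      · intro v hv
        have hv1 : v + P x ∈ S := interior_subset (s := D) hv
        have hv2 : P x ∈ S := interior_subset (s := D) h1
        exact ⟨v + P x, hv1, P x, hv2, add_sub_cancel_right _ _⟩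
    have hBb : Bornology.IsVonNBounded ℝ B := by
      rw [NormedSpace.isVonNBounded_iff]
      exact hSb.sub hSb
    have hNpos : ∀ v : Lᗮ, v ≠ 0 → 0 < gauge B v := fun v hv =>
      (gauge_pos (absorbent_nhds_zero hB0) hBb).mpr hv
    have hNcont : Continuous (gauge B) := continuous_gauge hBconv hB0
    let f : E → ℝ := fun y => gauge B (P y - c)
    have hfcont : Continuous f := hNcont.comp (P.continuous.sub continuous_const)
    have hle : ∀ g ∈ H, ∀ y, f (M.hol g y) ≤ f y := by
      intro g hg y
      let l : Lᗮ →ₗ[ℝ] Lᗮ :=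
        (P : E →ₗ[ℝ] Lᗮ) ∘ₗ ((M.hol g).linear : E →ₗ[ℝ] E) ∘ₗ Lᗮ.subtype
      have hl : ∀ v : Lᗮ, l v = P ((M.hol g).linear (v : E)) := fun _ => rfl
      have hlB : ∀ b ∈ B, l b ∈ B := by
        rintro _ ⟨v, hv, w, hw, rfl⟩
        refine ⟨P (M.hol g v), hPD _ (hinv g hg _ hv), P (M.hol g w), hPD _ (hinv g hg _ hw), ?_⟩
        rw [hl]
        change P (M.hol g v) - P (M.hol g w) = P ((M.hol g).linear ((v - w : Lᗮ) : E))
        rw [← map_sub, aff_sub]
        rfl
      have h1 : P (M.hol g y) - c = l (P y - c) := by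
        have h2 : (M.hol g).linear (y - c) - (M.hol g).linear (((P y - c : Lᗮ)) : E) ∈ L := by
          rw [← map_sub]
          have h3 : y - c - ((P y - c : Lᗮ) : E) = y - (P y : E) := by
            rw [Submodule.coe_sub]; abel
          rw [h3]
          exact hLinL g hg _ (hPsub y)
        have h4 := hPL' _ h2
        rw [map_sub, sub_eq_zero] at h4
        rw [hl, ← h4, ← aff_sub, map_sub, hfix g hg]
      change gauge B (P (M.hol g y) - c) ≤ gauge B (P y - c)
      rw [h1]
      exact gauge_map_le hB0 l hlB _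
    have heq : ∀ g ∈ H, ∀ x, f (M.hol g (M.dev x)) = f (M.dev x) := by
      intro g hg x
      refine le_antisymm (hle g hg _) ?_
      have := hle g⁻¹ (H.inv_mem hg) (M.hol g (M.dev x))
      rwa [hol_inv_hol] at this
    obtain ⟨x0⟩ := nonempty_cover hM
    refine no_max M H hH f hfcont heq ?_ x0
    intro y hy
    -- increase the gauge
    obtain ⟨w, hw⟩ : ∃ w : Lᗮ, ∀ t : ℝ, 0 < t → gauge B (P y - c) < gauge B (P y - c + t • w) := by
      by_cases hv0 : P y - c = 0
      · refine ⟨w0, fun t ht => ?_⟩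
        rw [hv0, zero_add, gauge_zero]
        exact hNpos _ (smul_ne_zero ht.ne' hw0)
      · refine ⟨P y - c, fun t ht => ?_⟩
        have h5 : P y - c + t • (P y - c) = (1 + t) • (P y - c) := by rw [add_smul, one_smul]
        rw [h5, gauge_smul_of_nonneg (by linarith), smul_eq_mul]
        have := hNpos _ hv0
        nlinarith
    have htend : Filter.Tendsto (fun n : ℕ => y + (1 / ((n : ℝ) + 1)) • (w : E)) Filter.atTop
        (𝓝 (y + (0 : ℝ) • (w : E))) :=
      (tendsto_one_div_add_atTop_nhds_zero_nat.smul_const _).const_add y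
    rw [zero_smul, add_zero] at htend
    obtain ⟨n, hn⟩ := (htend.eventually hy).exists
    have h6 : P (y + (1 / ((n : ℝ) + 1)) • (w : E)) - c =
        P y - c + (1 / ((n : ℝ) + 1)) • w := by
      rw [map_add, map_smul, hPid]
      abel
    have h7 : f (y + (1 / ((n : ℝ) + 1)) • (w : E)) =
        gauge B (P y - c + (1 / ((n : ℝ) + 1)) • w) := by
      change gauge B _ = _
      rw [h6]
    rw [h7] at hn
    exact absurd (hw _ (by positivity)) (not_lt.mpr hn)
  intro g hg v hv
  have h1 : M.hol g ((c : E) + v) = M.hol g c + (M.hol g).linear v := by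
    have := (M.hol g).map_vadd (c : E) v
    rw [vadd_eq_add, vadd_eq_add] at this
    rw [add_comm (c : E), this, add_comm]
  have h2 : M.hol g c - c ∈ L := by
    have := hPsub (M.hol g c)
    rwa [hfix g hg] at this
  rw [h1]
  have h3 : M.hol g c + (M.hol g).linear v - c = (M.hol g c - c) + (M.hol g).linear v := by abel
  rw [h3]
  exact L.add_mem h2 (hLinL g hg v hv)

/-- an invariant affine subspace of a closed affine manifold without vector field has dimension
at least two -/
theorem two_le_of_subInv [Nontrivial E] {M : ClosedAffineManifold E} {H : Subgroup M.deck}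
    (hH : H.FiniteIndex) {p : E} {L : Submodule ℝ E} (h : SubInv M H p L)
    (hM : ¬ VirtuallyNonvanishing M) : 2 ≤ Module.finrank ℝ L := by
  by_contra hlt
  push Not at hlt
  interval_cases hd : Module.finrank ℝ L
  · have hL : L = ⊥ := Submodule.finrank_eq_zero.mp hd
    apply hM
    refine vnv_of_fixed (p := p) hH fun g hg => ?_
    have := h g hg 0 L.zero_mem
    rw [hL, Submodule.mem_bot, add_zero, sub_eq_zero] at this
    exact this
  · exact hM (vnv_of_sub hH h (vnv_of_finrank_one hd _))

end Pool.Agent.Hhelper78.Chern
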