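import Pool.Agent.Hhelper78.Chern.Sub

/-!
# Linear holonomy: dual cones, invariant lines and hyperplanes; the fixed point property
-/

namespace Pool.Agent.Hhelper78.Chern

open Topology Set

variable {E : Type} [NormedAddCommGroup E] [InnerProductSpace ℝ E] [FiniteDimensional ℝ E]

/-- precomposition with an invertible linear map, as a map of the dual space -/
noncomputable def dualMap (e : E ≃ₗ[ℝ] E) : (E →L[ℝ] ℝ) ≃ₗ[ℝ] (E →L[ℝ] ℝ) where
  toFun f := f.comp (LinearMap.toContinuousLinearMap (e : E →ₗ[ℝ] E))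
  invFun f := f.comp (LinearMap.toContinuousLinearMap (e.symm : E →ₗ[ℝ] E))
  left_inv f := by ext; simp
  right_inv f := by ext; simp
  map_add' f g := by ext; simp
  map_smul' c f := by ext; simp

lemma dualMap_apply (e : E ≃ₗ[ℝ] E) (f : E →L[ℝ] ℝ) (v : E) : dualMap e f v = f (e v) := rfl

/-- the dual representation -/
noncomputable def dualHom (M : ClosedAffineManifold E) (H : Subgroup M.deck) :
    H →* ((E →L[ℝ] ℝ) ≃ᵃ[ℝ] (E →L[ℝ] ℝ)) where
  toFun g := (dualMap (M.hol (g : M.deck)⁻¹).linear).toAffineEquiv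
  map_one' := by
    ext f v
    change f ((M.hol ((1 : H) : M.deck)⁻¹).linear v) = f v
    rw [Subgroup.coe_one, inv_one, map_one]
    rfl
  map_mul' g h := by
    ext f v
    change f ((M.hol ((g * h : H) : M.deck)⁻¹).linear v) =
      f ((M.hol (h : M.deck)⁻¹).linear ((M.hol (g : M.deck)⁻¹).linear v))
    rw [Subgroup.coe_mul, mul_inv_rev, map_mul]
    rfl

/-- an invariant convex set of linear functionals which misses zero gives a vector field -/
theorem vnv_of_dual_convex (M : ClosedAffineManifold E)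
    (H : Subgroup M.deck) (hH : H.FiniteIndex) (W : Set (E →L[ℝ] ℝ)) (hW : Convex ℝ W)
    (hne : W.Nonempty) (h0 : (0 : E →L[ℝ] ℝ) ∉ W)
    (hinv : ∀ g ∈ H, ∀ f ∈ W, dualMap (M.hol g).linear f ∈ W) :
    VirtuallyNonvanishing M := by
  obtain ⟨w, hw⟩ := hne
  obtain ⟨K, -, -, c, -⟩ := exists_cut M H hH
  let ρ := dualHom M H
  refine vnv_of_form M H hH (c.avg ρ (fun _ => w))
    (c.continuous_avg ρ _ (c.cont.smul continuous_const)) ?_ ?_
  · intro x h
    have := c.avg_mem ρ (fun _ => w) hW (x := x) (fun g _ => by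
      change dualMap (M.hol ((g⁻¹ : H) : M.deck)⁻¹).linear w ∈ W
      rw [Subgroup.coe_inv, inv_inv]
      exact hinv _ g.2 w hw)
    rw [h] at this
    exact h0 this
  · intro g hg x v
    have h1 : c.avg ρ (fun _ => w) (g • x) = ρ ⟨g, hg⟩ (c.avg ρ (fun _ => w) x) :=
      c.avg_smul ρ (fun _ => w) ⟨g, hg⟩ x
    rw [h1]
    change c.avg ρ (fun _ => w) x ((M.hol g⁻¹).linear ((M.hol g).linear v)) = _
    rw [lin_inv_lin]

/-- the fixed point property -/
theorem fixed_point_property (M : ClosedAffineManifold E) (hM : ¬ VirtuallyNonvanishing M)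
    (H : Subgroup M.deck) (hH : H.FiniteIndex) (W : Set (E → E)) (hW : Convex ℝ W)
    (hc : ∃ A ∈ W, Continuous A)
    (hinv : ∀ g ∈ H, ∀ A ∈ W, (fun x => M.hol g (A (M.hol g⁻¹ x))) ∈ W) :
    ∃ A ∈ W, ∃ x : M.cover, A (M.dev x) = M.dev x := by
  obtain ⟨A, hA, hAc⟩ := hc
  by_contra hcon
  push Not at hcon
  apply hM
  obtain ⟨K, -, -, c, -⟩ := exists_cut M H hH
  let ρ : H →* (E ≃ᵃ[ℝ] E) := linHom (M.hol.comp H.subtype)
  let u : M.cover → E := fun x => A (M.dev x) - M.dev x
  have hu : Continuous u := (hAc.comp M.isLocalHomeomorph_dev.continuous).sub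
    M.isLocalHomeomorph_dev.continuous
  refine ⟨H, hH, c.avg ρ u, c.continuous_avg ρ _ (c.cont.smul hu), ?_, ?_⟩
  · intro g hg x
    exact c.avg_smul ρ _ ⟨g, hg⟩ x
  · intro x hx
    have hC : Convex ℝ {w : E | ∃ B ∈ W, w = B (M.dev x) - M.dev x} := by
      rintro _ ⟨B, hB, rfl⟩ _ ⟨B', hB', rfl⟩ a b ha hb hab
      refine ⟨a • B + b • B', hW hB hB' ha hb hab, ?_⟩
      have h1 : a • M.dev x + b • M.dev x = M.dev x := by rw [← add_smul, hab, one_smul]
      rw [Pi.add_apply, Pi.smul_apply, Pi.smul_apply, smul_sub, smul_sub]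
      calc a • B (M.dev x) - a • M.dev x + (b • B' (M.dev x) - b • M.dev x) =
          a • B (M.dev x) + b • B' (M.dev x) - (a • M.dev x + b • M.dev x) := by abel
        _ = _ := by rw [h1]
    have h2 := c.avg_mem ρ u hC (x := x) (fun g _ => by
      refine ⟨_, hinv _ (H.inv_mem g.2) A hA, ?_⟩
      change (M.hol ((g⁻¹ : H) : M.deck)).linear
        (A (M.dev ((g : M.deck) • x)) - M.dev ((g : M.deck) • x)) = _
      rw [← aff_sub, M.dev_smul, Subgroup.coe_inv, inv_inv, hol_inv_hol])
    obtain ⟨B, hB, h3⟩ := h2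
    rw [hx] at h3
    exact hcon B hB x (sub_eq_zero.mp h3.symm)

omit [FiniteDimensional ℝ E] in
/-- a real character becomes positive on a finite index subgroup -/
lemma exists_pos (M : ClosedAffineManifold E) (H : Subgroup M.deck) (hH : H.FiniteIndex)
    (χ : H →* ℝ) : ∃ (K : Subgroup M.deck) (hKH : K ≤ H), K.FiniteIndex ∧
      ∀ g (hg : g ∈ K), 0 < χ ⟨g, hKH hg⟩ := by
  let s : H →* SignTypeˣ := (Units.map (signHom (α := ℝ)).toMonoidHom).comp χ.toHomUnits
  have hfin : Finite SignTypeˣ := inferInstance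
  have hs : s.ker.FiniteIndex := Subgroup.finiteIndex_ker s
  refine ⟨s.ker.map H.subtype, Subgroup.map_subtype_le _, ?_, ?_⟩
  · constructor
    have h1 : (s.ker.map H.subtype).index = s.ker.index * H.index :=
      Subgroup.index_map_subtype _
    rw [h1]
    exact mul_ne_zero hs.index_ne_zero hH.index_ne_zero
  · rintro _ ⟨g, hg, rfl⟩
    have hg' : s g = 1 := hg
    have h1 : ((s g : SignTypeˣ) : SignType) = 1 := by rw [hg']; rfl
    have h2 : SignType.sign (χ g) = 1 := h1
    exact sign_eq_one_iff.mp h2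

/-- no invariant line -/
theorem vnv_of_line (M : ClosedAffineManifold E) (H : Subgroup M.deck) (hH : H.FiniteIndex)
    (L : Submodule ℝ E) (hL : Module.finrank ℝ L = 1)
    (hinv : ∀ g ∈ H, ∀ v ∈ L, (M.hol g).linear v ∈ L) : VirtuallyNonvanishing M := by
  obtain ⟨v, hv, hvs⟩ := finrank_eq_one_iff'.mp hL
  have hv' : (v : E) ≠ 0 := fun h => hv (Subtype.ext h)
  have hex : ∀ g : H, ∃ t : ℝ, t • (v : E) = (M.hol (g : M.deck)).linear (v : E) := by
    intro g
    obtain ⟨t, ht⟩ := hvs ⟨_, hinv g g.2 v v.2⟩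
    exact ⟨t, congrArg Subtype.val ht⟩
  choose t ht using hex
  let χ : H →* ℝ :=
    { toFun := t
      map_one' := by
        have h1 := ht 1
        rw [Subgroup.coe_one, map_one] at h1
        have h2 : t 1 • (v : E) = (1 : ℝ) • (v : E) := by rw [h1, one_smul]; rfl
        exact smul_left_injective ℝ hv' h2
      map_mul' := fun g h => by
        have h1 := ht (g * h)
        rw [Subgroup.coe_mul, map_mul] at h1
        have h2 : t (g * h) • (v : E) = (t g * t h) • (v : E) := by
          rw [h1]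
          change (M.hol (g : M.deck)).linear ((M.hol (h : M.deck)).linear (v : E)) = _
          rw [← ht h, map_smul, ← ht g, smul_smul, mul_comm]
        exact smul_left_injective ℝ hv' h2 }
  obtain ⟨K, hKH, hK, hpos⟩ := exists_pos M H hH χ
  refine vnv_of_convex M K hK {w | ∃ r : ℝ, 0 < r ∧ w = r • (v : E)} ?_ ⟨v, 1, one_pos, by simp⟩
    ?_ ?_
  · rintro _ ⟨r, hr, rfl⟩ _ ⟨r', hr', rfl⟩ a b ha hb hab
    refine ⟨a * r + b * r', ?_, by rw [add_smul, mul_smul, mul_smul]⟩
    rcases ha.eq_or_lt with rfl | ha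
    · have : b = 1 := by linarith
      subst this
      simpa using hr'
    · have := mul_pos ha hr
      have := mul_nonneg hb hr'.le
      linarith
  · rintro ⟨r, hr, h⟩
    rcases smul_eq_zero.mp h.symm with h | h
    · exact hr.ne' h
    · exact hv' h
  · rintro g hg _ ⟨r, hr, rfl⟩
    refine ⟨r * t ⟨g, hKH hg⟩, mul_pos hr (hpos g hg), ?_⟩
    rw [map_smul, ← ht ⟨g, hKH hg⟩, smul_smul]

/-- no invariant hyperplane -/
theorem vnv_of_hyperplane (M : ClosedAffineManifold E) (H : Subgroup M.deck)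
    (hH : H.FiniteIndex) (L : Submodule ℝ E)
    (hL : Module.finrank ℝ L + 1 = Module.finrank ℝ E)
    (hinv : ∀ g ∈ H, ∀ v ∈ L, (M.hol g).linear v ∈ L) : VirtuallyNonvanishing M := by
  have hLo : Module.finrank ℝ Lᗮ = 1 := by
    have := L.finrank_add_finrank_orthogonal
    omega
  obtain ⟨w, hw, hws⟩ := finrank_eq_one_iff'.mp hLo
  have hw' : (w : E) ≠ 0 := fun h => hw (Subtype.ext h)
  have hww : (0 : ℝ) < inner ℝ (w : E) (w : E) := real_inner_self_pos.mpr hw'
  let f : E →L[ℝ] ℝ := innerSL ℝ (w : E)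
  have hf : ∀ v, f v = inner ℝ (w : E) v := fun _ => rfl
  have hfw : f w ≠ 0 := hww.ne'
  have hfL : ∀ v ∈ L, f v = 0 := fun v hv => by
    rw [hf]
    exact Submodule.inner_left_of_mem_orthogonal hv w.2
  -- decomposition
  have hdec : ∀ v : E, v - (f v / f w) • (w : E) ∈ L := by
    intro v
    have h1 : v - (f v / f w) • (w : E) ∈ Lᗮᗮ := by
      rw [Submodule.mem_orthogonal]
      intro u hu
      obtain ⟨r, hr⟩ := hws ⟨u, hu⟩
      have hr' : r • (w : E) = u := congrArg Subtype.val hr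
      rw [← hr', real_inner_smul_left, inner_sub_right, real_inner_smul_right]
      have h2 : f v / f w * inner ℝ (w : E) (w : E) = f v := by
        rw [← hf w]; exact div_mul_cancel₀ _ hfw
      rw [h2, hf, sub_self, mul_zero]
    rwa [Submodule.orthogonal_orthogonal] at h1
  let t : H → ℝ := fun g => f ((M.hol (g : M.deck)).linear w) / f w
  have ht : ∀ (g : H) (v : E), f ((M.hol (g : M.deck)).linear v) = t g * f v := by
    intro g v
    have h1 := hfL _ (hinv g g.2 _ (hdec v))
    rw [map_sub, map_smul, map_sub, map_smul, sub_eq_zero, smul_eq_mul] at h1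
    rw [h1]
    simp only [t]
    ring
  let χ : H →* ℝ :=
    { toFun := t
      map_one' := by
        have h1 := ht 1 w
        rw [Subgroup.coe_one, map_one] at h1
        change f w = t 1 * f w at h1
        exact mul_right_cancel₀ hfw (by rw [← h1, one_mul])
      map_mul' := fun g h => by
        have h1 := ht (g * h) w
        rw [Subgroup.coe_mul, map_mul] at h1
        change f ((M.hol (g : M.deck)).linear ((M.hol (h : M.deck)).linear w)) = _ at h1
        rw [ht g, ht h, ← mul_assoc] at h1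
        exact mul_right_cancel₀ hfw h1.symm }
  obtain ⟨K, hKH, hK, hpos⟩ := exists_pos M H hH χ
  refine vnv_of_dual_convex M K hK {k | ∃ r : ℝ, 0 < r ∧ k = r • f} ?_ ⟨f, 1, one_pos, by simp⟩
    ?_ ?_
  · rintro _ ⟨r, hr, rfl⟩ _ ⟨r', hr', rfl⟩ a b ha hb hab
    refine ⟨a * r + b * r', ?_, by rw [add_smul, mul_smul, mul_smul]⟩
    rcases ha.eq_or_lt with rfl | ha
    · have : b = 1 := by linarith
      subst this
      simpa using hr'
    · have := mul_pos ha hr
      have := mul_nonneg hb hr'.le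
      linarith
  · rintro ⟨r, hr, h⟩
    have h1 := congrArg (fun k : E →L[ℝ] ℝ => k w) h
    simp only [zero_apply, smul_apply, smul_eq_mul] at h1
    exact (mul_ne_zero hr.ne' hfw) h1.symm
  · rintro g hg _ ⟨r, hr, rfl⟩
    refine ⟨r * t ⟨g, hKH hg⟩, mul_pos hr (hpos g hg), ?_⟩
    ext v
    change r • f ((M.hol g).linear v) = (r * t ⟨g, hKH hg⟩) • f v
    rw [ht ⟨g, hKH hg⟩ v]
    simp only [smul_eq_mul]
    ring

end Pool.Agent.Hhelper78.Chern
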