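import Pool.Agent.Hhelper78.Chern.Affine

/-!
# Centralisers and normal subgroups in irreducible pieces
-/

namespace Pool.Agent.Hhelper78.Chern

open Topology Set

variable {E : Type} [NormedAddCommGroup E] [InnerProductSpace ℝ E] [FiniteDimensional ℝ E]

/-- the affine centraliser is trivial -/
theorem centraliser {M : ClosedAffineManifold E} (hM : Irred M) {H : Subgroup M.deck}
    (hH : H.FiniteIndex) (A : E →ᵃ[ℝ] E) (hA : ∀ g ∈ H, ∀ x, A (M.hol g x) = M.hol g (A x)) :
    ∀ x, A x = x := by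
  have hAadd : ∀ p v, A (p + v) = A p + A.linear v := by
    intro p v
    have := A.map_vadd p v
    rw [vadd_eq_add, vadd_eq_add] at this
    rw [add_comm p, this, add_comm]
  have hAsub : ∀ x y, A.linear (x - y) = A x - A y := by
    intro x y
    have := hAadd y (x - y)
    rw [add_sub_cancel] at this
    rw [this]; abel
  obtain ⟨x0, hx0⟩ : ∃ x0, A x0 = x0 := by
    by_contra hcon
    push Not at hcon
    apply hM.1
    refine ⟨H, hH, fun x => A (M.dev x) - M.dev x, ?_, ?_, ?_⟩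
    · exact (A.continuous_of_finiteDimensional.comp M.isLocalHomeomorph_dev.continuous).sub
        M.isLocalHomeomorph_dev.continuous
    · intro g hg x
      simp only
      rw [M.dev_smul, hA g hg, aff_sub]
    · intro x hx
      exact hcon _ (sub_eq_zero.mp hx)
  let L : Submodule ℝ E := LinearMap.ker (A.linear - LinearMap.id)
  have hL : ∀ v, v ∈ L ↔ A.linear v = v := by
    intro v
    rw [LinearMap.mem_ker, LinearMap.sub_apply, sub_eq_zero]
    rfl
  have h : SubInv M H x0 L := by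
    intro g hg v hv
    rw [hL] at hv ⊢
    rw [hAsub, hA g hg, hAadd, hv, hx0]
  have htop := hM.2 H hH x0 L h
  intro x
  have h1 : x - x0 ∈ L := by rw [htop]; exact Submodule.mem_top
  rw [hL, hAsub, hx0] at h1
  exact sub_left_injective h1

/-- an affine map different from the identity has infinitely many conjugates -/
theorem conj_infinite {M : ClosedAffineManifold E} (hM : Irred M) {H : Subgroup M.deck}
    (hH : H.FiniteIndex) (A : E →ᵃ[ℝ] E) (hA : ∃ x, A x ≠ x) :
    {B : E →ᵃ[ℝ] E | ∃ g ∈ H, ∀ x, B x = M.hol g (A (M.hol g⁻¹ x))}.Infinite := by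
  intro hfin
  let act : MulAction H (E →ᵃ[ℝ] E) :=
    { smul := fun g B => (M.hol (g : M.deck)).toAffineMap.comp
        (B.comp (M.hol (g : M.deck)⁻¹).toAffineMap)
      one_smul := fun B => by
        ext x
        change M.hol ((1 : H) : M.deck) (B (M.hol ((1 : H) : M.deck)⁻¹ x)) = B x
        rw [Subgroup.coe_one, inv_one, map_one]
        rfl
      mul_smul := fun g g' B => by
        ext x
        change M.hol ((g * g' : H) : M.deck) (B (M.hol ((g * g' : H) : M.deck)⁻¹ x)) =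
          M.hol g (M.hol g' (B (M.hol (g' : M.deck)⁻¹ (M.hol (g : M.deck)⁻¹ x))))
        rw [Subgroup.coe_mul, hol_mul, mul_inv_rev, hol_mul] }
  have hsmul : ∀ (g : H) (B : E →ᵃ[ℝ] E) (x : E),
      (g • B) x = M.hol g (B (M.hol (g : M.deck)⁻¹ x)) := fun _ _ _ => rfl
  have horb : (MulAction.orbit H A).Finite := by
    refine hfin.subset ?_
    rintro _ ⟨g, rfl⟩
    exact ⟨g, g.2, fun x => rfl⟩
  have hidx : (MulAction.stabilizer H A).FiniteIndex := by
    constructor
    rw [MulAction.index_stabilizer]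
    exact ((Set.ncard_pos horb).mpr ⟨A, MulAction.mem_orbit_self A⟩).ne'
  let K : Subgroup M.deck := Subgroup.map H.subtype (MulAction.stabilizer H A)
  have hK : K.FiniteIndex := by
    constructor
    have h1 : K.index = (MulAction.stabilizer H A).index * H.index :=
      Subgroup.index_map_subtype _
    rw [h1]
    exact mul_ne_zero hidx.index_ne_zero hH.index_ne_zero
  obtain ⟨x, hx⟩ := hA
  refine hx (centraliser hM hK A ?_ x)
  rintro _ ⟨g, hg, rfl⟩ y
  have h1 : g • A = A := hg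
  have h2 := hsmul g A (M.hol (g : M.deck) y)
  rw [h1, hol_inv_hol] at h2
  exact h2

omit [FiniteDimensional ℝ E] in
/-- a normalised subgroup with a fixed point acts trivially -/
theorem fixed_trivial {M : ClosedAffineManifold E} (hM : Irred M) {H : Subgroup M.deck}
    (hH : H.FiniteIndex) (N : Subgroup M.deck) (hN : ∀ g ∈ H, ∀ a ∈ N, g * a * g⁻¹ ∈ N)
    (c : E) (hc : ∀ a ∈ N, M.hol a c = c) : ∀ a ∈ N, M.hol a = 1 := by
  let L : Submodule ℝ E :=
    { carrier := {v | ∀ a ∈ N, (M.hol a).linear v = v}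
      add_mem' := fun ha hb a haN => by rw [map_add, ha a haN, hb a haN]
      zero_mem' := fun a _ => map_zero _
      smul_mem' := fun r v hv a haN => by rw [map_smul, hv a haN] }
  have hL : ∀ v, v ∈ L ↔ ∀ a ∈ N, (M.hol a).linear v = v := fun _ => Iff.rfl
  have h : SubInv M H c L := by
    intro g hg v hv a ha
    have h1 : g⁻¹ * a * g ∈ N := by
      have := hN g⁻¹ (H.inv_mem hg) a ha
      rwa [inv_inv] at this
    have h2 : M.hol a (M.hol g (c + v)) = M.hol g (c + v) := by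
      have h3 : M.hol a (M.hol g (c + v)) = M.hol g (M.hol (g⁻¹ * a * g) (c + v)) := by
        rw [← hol_mul, ← hol_mul]
        congr 2
        group
      rw [h3, aff_add, hc _ h1, hv _ h1]
    rw [← aff_sub, h2, hc a ha]
  have htop := hM.2 H hH c L h
  intro a ha
  ext x
  have h1 : x - c ∈ L := by rw [htop]; exact Submodule.mem_top
  have h2 := h1 a ha
  rw [← aff_sub, hc a ha] at h2
  exact sub_left_injective h2

/-- nontrivial normalised subgroups have unbounded orbits -/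
theorem orbit_unbounded {M : ClosedAffineManifold E} (hM : Irred M) {H : Subgroup M.deck}
    (hH : H.FiniteIndex) (N : Subgroup M.deck) (hN : ∀ g ∈ H, ∀ a ∈ N, g * a * g⁻¹ ∈ N)
    (hne : ∃ a ∈ N, M.hol a ≠ 1) (x : E) :
    ¬ Bornology.IsBounded {y | ∃ a ∈ N, y = M.hol a x} := by
  intro hb
  let O : Set E := {y | ∃ a ∈ N, y = M.hol a x}
  have hOinv : ∀ a ∈ N, ∀ y ∈ O, M.hol a y ∈ O := by
    rintro a ha _ ⟨b, hb, rfl⟩
    exact ⟨a * b, N.mul_mem ha hb, (hol_mul a b x).symm⟩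
  let S : Set E := closure (convexHull ℝ O)
  have hScomp : IsCompact S := Metric.isCompact_of_isClosed_isBounded isClosed_closure
    (isBounded_convexHull.mpr hb).closure
  have hSconv : Convex ℝ S := (convex_convexHull ℝ O).closure
  have hSne : S.Nonempty := ⟨x, subset_closure (subset_convexHull ℝ O ⟨1, N.one_mem, by
    rw [map_one]; rfl⟩)⟩
  obtain ⟨c, hc⟩ := centroid hScomp hSconv hSne
  have hSinv : ∀ a ∈ N, ∀ y ∈ S, M.hol a y ∈ S := by
    intro a ha y hy
    have hcont : Continuous (M.hol a) := (M.hol a).toAffineMap.continuous_of_finiteDimensional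
    refine map_mem_closure hcont hy fun z hz => ?_
    have h1 : M.hol a z ∈ (M.hol a).toAffineMap '' convexHull ℝ O := ⟨z, hz, rfl⟩
    rw [AffineMap.image_convexHull] at h1
    refine convexHull_mono ?_ h1
    rintro _ ⟨w, hw, rfl⟩
    exact hOinv a ha w hw
  have hfix : ∀ a ∈ N, M.hol a c = c := by
    intro a ha
    refine hc (M.hol a).toAffineMap ?_
    ext y
    constructor
    · rintro ⟨z, hz, rfl⟩
      exact hSinv a ha z hz
    · intro hy
      exact ⟨M.hol a⁻¹ y, hSinv a⁻¹ (N.inv_mem ha) y hy, hol_hol_inv a y⟩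
  obtain ⟨a, ha, ha'⟩ := hne
  exact ha' (fixed_trivial hM hH N hN c hfix a ha)

/-! ### abelian normal subgroups -/

/-- the linear extension of an affine map to `E × ℝ` -/
def hat (f : E ≃ᵃ[ℝ] E) : Module.End ℝ (E × ℝ) where
  toFun q := (f.linear q.1 + q.2 • f 0, q.2)
  map_add' q r := by
    ext
    · simp only [Prod.fst_add, Prod.snd_add, map_add, add_smul]; abel
    · rfl
  map_smul' c q := by
    ext
    · simp only [Prod.smul_fst, Prod.smul_snd, map_smul, smul_add, smul_smul, smul_eq_mul,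
        RingHom.id_apply]
    · rfl

omit [FiniteDimensional ℝ E] in
lemma hat_apply (f : E ≃ᵃ[ℝ] E) (v : E) (t : ℝ) : hat f (v, t) = (f.linear v + t • f 0, t) := rfl

omit [FiniteDimensional ℝ E] in
lemma hat_one_right (f : E ≃ᵃ[ℝ] E) (v : E) : hat f (v, 1) = (f v, 1) := by
  rw [hat_apply, one_smul]
  have := aff_add f 0 v
  rw [zero_add] at this
  rw [this, add_comm]

omit [FiniteDimensional ℝ E] in
lemma hat_mul (f g : E ≃ᵃ[ℝ] E) : hat (f * g) = hat f * hat g := by
  apply LinearMap.ext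
  rintro ⟨v, t⟩
  change ((f * g).linear v + t • (f * g) 0, t) =
    (f.linear (g.linear v + t • g 0) + t • f 0, t)
  have h1 : (f * g) 0 = f.linear (g 0) + f 0 := by
    change f (g 0) = _
    have := aff_add f 0 (g 0)
    rw [zero_add] at this
    rw [this, add_comm]
  rw [h1, map_add, map_smul, smul_add, add_assoc]
  rfl

omit [FiniteDimensional ℝ E] in
lemma hat_sub_one_snd (f : E ≃ᵃ[ℝ] E) (q : E × ℝ) : ((hat f - 1) q).2 = 0 := by
  obtain ⟨v, t⟩ := q
  rw [LinearMap.sub_apply, hat_apply]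
  simp

omit [FiniteDimensional ℝ E] in
lemma hat_sub_one_pow_snd (f : E ≃ᵃ[ℝ] E) (n : ℕ) (hn : n ≠ 0) (q : E × ℝ) :
    (((hat f - 1) ^ n) q).2 = 0 := by
  obtain ⟨m, rfl⟩ := Nat.exists_eq_succ_of_ne_zero hn
  rw [pow_succ']
  exact hat_sub_one_snd f _

omit [FiniteDimensional ℝ E] in
lemma hat_sub_one_pow_zero (f : E ≃ᵃ[ℝ] E) (n : ℕ) (v : E) :
    ((hat f - 1) ^ n) (v, 0) = ((((f.linear : E →ₗ[ℝ] E) - 1) ^ n) v, 0) := by
  induction n with
  | zero => rfl
  | succ n ih =>
    rw [pow_succ', pow_succ']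
    change (hat f - 1) (((hat f - 1) ^ n) (v, 0)) = _
    rw [ih, LinearMap.sub_apply, hat_apply, zero_smul, add_zero]
    ext <;> simp

/-- generalised fixed vectors of a commuting family -/
theorem exists_gen_fixed (F : Set (E ≃ᵃ[ℝ] E)) (hF : ∀ a ∈ F, ∀ b ∈ F, a * b = b * a) :
    ∃ c : E, ∀ a ∈ F, ∃ k : ℕ, ((hat a - 1) ^ k) (c, 1) = 0 := by
  classical
  have hcomm : ∀ a ∈ F, ∀ b ∈ F, Commute (hat b) (hat a - 1) := by
    intro a ha b hb
    have h1 : Commute (hat b) (hat a) := by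
      change hat b * hat a = hat a * hat b
      rw [← hat_mul, ← hat_mul, hF b hb a ha]
    exact h1.sub_right (Commute.one_right _)
  let P : ℕ → Prop := fun d => ∃ Q : Submodule ℝ (E × ℝ), Module.finrank ℝ Q = d ∧
    (∀ a ∈ F, ∀ q ∈ Q, hat a q ∈ Q) ∧ ∃ q ∈ Q, q.2 ≠ 0
  have hP : ∃ d, P d :=
    ⟨_, ⊤, rfl, fun _ _ _ _ => Submodule.mem_top, (0, 1), Submodule.mem_top, one_ne_zero⟩
  obtain ⟨Q, hd, hQ, q, hq, hq2⟩ := Nat.find_spec hP
  have key : ∀ a ∈ F, ∃ n : ℕ, ∀ r ∈ Q, ((hat a - 1) ^ n) r = 0 := by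
    intro a ha
    have hTQ : ∀ r ∈ Q, (hat a - 1) r ∈ Q := by
      intro r hr
      rw [LinearMap.sub_apply]
      exact Q.sub_mem (hQ a ha r hr) hr
    let T : Module.End ℝ Q := (hat a - 1).restrict hTQ
    have hTpow : ∀ (n : ℕ) (r : Q), ((T ^ n) r : E × ℝ) = ((hat a - 1) ^ n) r := by
      intro n
      induction n with
      | zero => intro r; rfl
      | succ n ih =>
        intro r
        rw [pow_succ', pow_succ']
        change (hat a - 1) ((T ^ n) r : E × ℝ) = (hat a - 1) (((hat a - 1) ^ n) r)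
        rw [ih]
    obtain ⟨n, hcompl, hn⟩ :=
      (T.eventually_isCompl_ker_pow_range_pow.and (Filter.eventually_ne_atTop 0)).exists
    refine ⟨n, ?_⟩
    let Q' : Submodule ℝ (E × ℝ) := Q ⊓ LinearMap.ker ((hat a - 1) ^ n)
    have hQ'Q : Q' ≤ Q := inf_le_left
    have hQ' : ∀ b ∈ F, ∀ r ∈ Q', hat b r ∈ Q' := by
      rintro b hb r ⟨hr1, hr2⟩
      refine ⟨hQ b hb r hr1, ?_⟩
      have h1 : Commute (hat b) ((hat a - 1) ^ n) := (hcomm a ha b hb).pow_right n
      have h2 : ((hat a - 1) ^ n) (hat b r) = hat b (((hat a - 1) ^ n) r) :=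
        (LinearMap.congr_fun h1.eq r).symm
      change ((hat a - 1) ^ n) (hat b r) = 0
      have h3 : ((hat a - 1) ^ n) r = 0 := hr2
      rw [h2, h3, map_zero]
    obtain ⟨r, hr, hr2⟩ : ∃ r ∈ Q', r.2 ≠ 0 := by
      have h1 : (⟨q, hq⟩ : Q) ∈ LinearMap.ker (T ^ n) ⊔ LinearMap.range (T ^ n) := by
        rw [hcompl.sup_eq_top]; exact Submodule.mem_top
      obtain ⟨y, hy, z, ⟨w, rfl⟩, hyz⟩ := Submodule.mem_sup.mp h1
      refine ⟨y, ⟨y.2, ?_⟩, ?_⟩
      · have h2 : (T ^ n) y = 0 := hy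
        change ((hat a - 1) ^ n) y = 0
        rw [← hTpow, h2]
        rfl
      · have h3 : (y : E × ℝ) + ((T ^ n) w : E × ℝ) = q := congrArg Subtype.val hyz
        have h4 : ((T ^ n) w : E × ℝ).2 = 0 := by
          rw [hTpow]; exact hat_sub_one_pow_snd a n hn _
        rw [← h3, Prod.snd_add, h4, add_zero] at hq2
        exact hq2
    have hle : Module.finrank ℝ Q ≤ Module.finrank ℝ Q' := by
      rw [hd]
      exact Nat.find_min' hP ⟨Q', rfl, hQ', r, hr, hr2⟩
    have heq : Q' = Q := Submodule.eq_of_le_of_finrank_le hQ'Q hle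
    intro s hs
    have h5 : s ∈ Q' := by rw [heq]; exact hs
    exact h5.2
  refine ⟨(q.2)⁻¹ • q.1, fun a ha => ?_⟩
  obtain ⟨n, hn⟩ := key a ha
  refine ⟨n, ?_⟩
  have h1 : ((q.2)⁻¹ • q.1, (1 : ℝ)) = (q.2)⁻¹ • q := by
    ext
    · rfl
    · simp [inv_mul_cancel₀ hq2]
  rw [h1, map_smul, hn q hq, smul_zero]

/-- abelian normalised subgroups are unipotent -/
theorem unipotent {M : ClosedAffineManifold E} (hM : Irred M) {H : Subgroup M.deck}
    (hH : H.FiniteIndex) (N : Subgroup M.deck) (hN : ∀ g ∈ H, ∀ a ∈ N, g * a * g⁻¹ ∈ N)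
    (hab : ∀ a ∈ N, ∀ b ∈ N, M.hol a * M.hol b = M.hol b * M.hol a) :
    ∀ a ∈ N, IsNilpotent (((M.hol a).linear : E →ₗ[ℝ] E) - 1) := by
  obtain ⟨c, hc⟩ := exists_gen_fixed (M.hol '' N) (by
    rintro _ ⟨a, ha, rfl⟩ _ ⟨b, hb, rfl⟩
    exact hab a ha b hb)
  let K : Submodule ℝ (E × ℝ) :=
    ⨅ a : N, Module.End.maxGenEigenspace (hat (M.hol a)) 1
  have hK : ∀ q, q ∈ K ↔ ∀ a ∈ N, ∃ k : ℕ, ((hat (M.hol a) - 1) ^ k) q = 0 := by
    intro q
    rw [Submodule.mem_iInf]
    constructor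
    · intro h a ha
      have := (Module.End.mem_maxGenEigenspace _ _ _).mp (h ⟨a, ha⟩)
      simpa only [one_smul] using this
    · intro h a
      rw [Module.End.mem_maxGenEigenspace]
      simpa only [one_smul] using h a a.2
  have hc1 : (c, (1 : ℝ)) ∈ K := by
    rw [hK]
    intro a ha
    exact hc _ ⟨a, ha, rfl⟩
  have hKinv : ∀ g ∈ H, ∀ q ∈ K, hat (M.hol g) q ∈ K := by
    intro g hg q hq
    rw [hK] at hq ⊢
    intro a ha
    have h1 : g⁻¹ * a * g ∈ N := by
      have := hN g⁻¹ (H.inv_mem hg) a ha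
      rwa [inv_inv] at this
    obtain ⟨k, hk⟩ := hq _ h1
    refine ⟨k, ?_⟩
    have h2 : SemiconjBy (hat (M.hol g)) (hat (M.hol (g⁻¹ * a * g)) - 1) (hat (M.hol a) - 1) := by
      refine SemiconjBy.sub_right ?_ (SemiconjBy.one_right _)
      change hat (M.hol g) * hat (M.hol (g⁻¹ * a * g)) = hat (M.hol a) * hat (M.hol g)
      rw [← hat_mul, ← hat_mul, ← map_mul, ← map_mul]
      congr 2
      group
    have h3 := h2.pow_right k
    have h4 : ((hat (M.hol a) - 1) ^ k) (hat (M.hol g) q) =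
        hat (M.hol g) (((hat (M.hol (g⁻¹ * a * g)) - 1) ^ k) q) :=
      (LinearMap.congr_fun h3.eq q).symm
    rw [h4, hk, map_zero]
  let L : Submodule ℝ E := K.comap (LinearMap.inl ℝ E ℝ)
  have hL : ∀ v, v ∈ L ↔ (v, (0 : ℝ)) ∈ K := fun _ => Iff.rfl
  have h : SubInv M H c L := by
    intro g hg v hv
    rw [hL] at hv ⊢
    have h1 : (c + v, (1 : ℝ)) ∈ K := by
      have := K.add_mem hc1 hv
      simpa using this
    have h2 := K.sub_mem (hKinv g hg _ h1) hc1
    rw [hat_one_right] at h2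
    simpa using h2
  have htop := hM.2 H hH c L h
  intro a ha
  rw [Module.End.isNilpotent_iff_of_finite]
  intro v
  have h1 : v ∈ L := by rw [htop]; exact Submodule.mem_top
  rw [hL, hK] at h1
  obtain ⟨k, hk⟩ := h1 a ha
  refine ⟨k, ?_⟩
  rw [hat_sub_one_pow_zero] at hk
  exact congrArg Prod.fst hk

end Pool.Agent.Hhelper78.Chern
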