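import Pool.Agent.Hhelper78.Chern.Defs

/-!
# Radiant closed affine manifolds: the developing map misses the fixed point
-/

namespace Pool.Agent.Hhelper78.Chern

open Topology Set

section

variable {X V : Type*} [TopologicalSpace X] [NormedAddCommGroup V] [NormedSpace ℝ V]

/-- the radial segment from `dev y` to `(1+ε) dev y` lifts to a path starting at `y` -/
def RExt (dev : X → V) (y : X) (ε : ℝ) : Prop :=
  ∃ γ : ℝ → X, ContinuousOn γ (Icc 1 (1 + ε)) ∧ γ 1 = y ∧
    ∀ t ∈ Icc (1 : ℝ) (1 + ε), dev (γ t) = t • dev y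

lemma RExt.anti {dev : X → V} {y : X} {ε δ : ℝ} (h : RExt dev y ε) (hδ : δ ≤ ε) :
    RExt dev y δ := by
  obtain ⟨γ, h1, h2, h3⟩ := h
  have : Icc (1 : ℝ) (1 + δ) ⊆ Icc 1 (1 + ε) := Icc_subset_Icc le_rfl (by linarith)
  exact ⟨γ, h1.mono this, h2, fun t ht => h3 t (this ht)⟩

lemma local_ext {dev : X → V} (hdev : IsLocalHomeomorph dev) (x : X) :
    ∃ ε > 0, ∃ U ∈ 𝓝 x, ∀ y ∈ U, RExt dev y ε := by
  obtain ⟨e, hxe, he⟩ := hdev x
  have h1 : e.target ∈ 𝓝 (dev x) := by rw [he]; exact e.open_target.mem_nhds (e.map_source hxe)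
  obtain ⟨r, hr, hball⟩ := Metric.mem_nhds_iff.mp h1
  set N := ‖dev x‖ + r with hN
  have hNpos : 0 < N := by positivity
  refine ⟨r / (2 * N), by positivity, e.source ∩ dev ⁻¹' (Metric.ball (dev x) (r / 2)), ?_, ?_⟩
  · exact Filter.inter_mem (e.open_source.mem_nhds hxe)
      (hdev.continuous.continuousAt.preimage_mem_nhds (Metric.ball_mem_nhds _ (by positivity)))
  · rintro y ⟨hy1, hy2⟩
    have hy3 : ‖dev y - dev x‖ < r / 2 := by simpa [dist_eq_norm] using hy2
    have hy4 : ‖dev y‖ ≤ N := by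
      have := norm_add_le (dev y - dev x) (dev x)
      rw [sub_add_cancel] at this
      rw [hN]; linarith
    have hmem : ∀ t ∈ Icc (1 : ℝ) (1 + r / (2 * N)), t • dev y ∈ e.target := by
      intro t ht
      apply hball
      rw [Metric.mem_ball, dist_eq_norm]
      have h2 : t • dev y - dev x = (t - 1) • dev y + (dev y - dev x) := by
        rw [sub_smul, one_smul]; abel
      rw [h2]
      refine lt_of_le_of_lt (norm_add_le _ _) ?_
      rw [norm_smul, Real.norm_eq_abs, abs_of_nonneg (by linarith [ht.1])]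
      have h3 : (t - 1) * ‖dev y‖ ≤ r / (2 * N) * N :=
        mul_le_mul (by linarith [ht.2]) hy4 (norm_nonneg _) (by positivity)
      have h4 : r / (2 * N) * N = r / 2 := by field_simp
      linarith
    refine ⟨fun t => e.symm (t • dev y), ?_, ?_, ?_⟩
    · exact e.continuousOn_symm.comp (Continuous.continuousOn (by fun_prop)) hmem
    · simp only [one_smul, he]
      exact e.left_inv hy1
    · intro t ht
      have := e.right_inv (hmem t ht)
      rw [← he] at this
      exact this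

/-- the ray `t ↦ t v`, `t ∈ [0,s]`, lifts to a path starting at `z` -/
def RLift (dev : X → V) (z : X) (v : V) (s : ℝ) : Prop :=
  ∃ γ : ℝ → X, ContinuousOn γ (Icc 0 s) ∧ γ 0 = z ∧ ∀ t ∈ Icc (0 : ℝ) s, dev (γ t) = t • v

lemma RLift.anti {dev : X → V} {z : X} {v : V} {s s' : ℝ} (h : RLift dev z v s) (hs : s' ≤ s) :
    RLift dev z v s' := by
  obtain ⟨γ, h1, h2, h3⟩ := h
  have : Icc (0 : ℝ) s' ⊆ Icc 0 s := Icc_subset_Icc le_rfl hs
  exact ⟨γ, h1.mono this, h2, fun t ht => h3 t (this ht)⟩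

lemma RLift.start {dev : X → V} (hdev : IsLocalHomeomorph dev) {z : X} (hz : dev z = 0) (v : V) :
    ∃ s > 0, RLift dev z v s := by
  obtain ⟨e, hxe, he⟩ := hdev z
  have h1 : e.target ∈ 𝓝 (dev z) := by rw [he]; exact e.open_target.mem_nhds (e.map_source hxe)
  obtain ⟨r, hr, hball⟩ := Metric.mem_nhds_iff.mp h1
  rw [hz] at hball
  have hv : 0 < ‖v‖ + 1 := by positivity
  refine ⟨r / (2 * (‖v‖ + 1)), by positivity, ?_⟩
  have hmem : ∀ t ∈ Icc (0 : ℝ) (r / (2 * (‖v‖ + 1))), t • v ∈ e.target := by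
    intro t ht
    apply hball
    rw [Metric.mem_ball, dist_zero_right, norm_smul, Real.norm_eq_abs, abs_of_nonneg ht.1]
    have h3 : t * ‖v‖ ≤ r / (2 * (‖v‖ + 1)) * (‖v‖ + 1) :=
      mul_le_mul ht.2 (by linarith) (norm_nonneg _) (by positivity)
    have h4 : r / (2 * (‖v‖ + 1)) * (‖v‖ + 1) = r / 2 := by field_simp
    linarith
  refine ⟨fun t => e.symm (t • v), ?_, ?_, ?_⟩
  · exact e.continuousOn_symm.comp (Continuous.continuousOn (by fun_prop)) hmem
  · simp only [zero_smul]
    rw [← hz, he]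
    exact e.left_inv hxe
  · intro t ht
    have := e.right_inv (hmem t ht)
    rw [← he] at this
    exact this

lemma RLift.extend {dev : X → V} {ε : ℝ} (hε : 0 < ε) (hext : ∀ y, RExt dev y ε) {z : X} {v : V}
    {s : ℝ} (hs : 0 < s) (h : RLift dev z v s) : RLift dev z v (s * (1 + ε)) := by
  obtain ⟨γ, h1, h2, h3⟩ := h
  obtain ⟨δ, k1, k2, k3⟩ := hext (γ s)
  have hle : s ≤ s * (1 + ε) := by nlinarith
  have hdiv : ∀ t ∈ Icc s (s * (1 + ε)), t / s ∈ Icc 1 (1 + ε) := by
    intro t ht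
    constructor
    · rw [le_div_iff₀ hs]; linarith [ht.1]
    · rw [div_le_iff₀ hs]; linarith [ht.2]
  let γ' : ℝ → X := fun t => if t ≤ s then γ t else δ (t / s)
  have e1 : EqOn γ' γ (Icc 0 s) := fun t ht => if_pos ht.2
  have e2 : EqOn γ' (fun t => δ (t / s)) (Icc s (s * (1 + ε))) := by
    intro t ht
    rcases ht.1.eq_or_lt with rfl | hlt
    · simp only [γ', le_refl, if_true, div_self hs.ne', k2]
    · exact if_neg (not_le.mpr hlt)
  refine ⟨γ', ?_, ?_, ?_⟩
  · rw [← Icc_union_Icc_eq_Icc hs.le hle]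
    refine ContinuousOn.union_of_isClosed (h1.congr e1) ?_ isClosed_Icc isClosed_Icc
    refine ContinuousOn.congr ?_ e2
    exact k1.comp (Continuous.continuousOn (by fun_prop)) hdiv
  · rw [e1 ⟨le_rfl, hs.le⟩, h2]
  · intro t ht
    rcases le_or_gt t s with hts | hts
    · rw [e1 ⟨ht.1, hts⟩, h3 t ⟨ht.1, hts⟩]
    · rw [e2 ⟨hts.le, ht.2⟩]
      have := k3 (t / s) (hdiv t ⟨hts.le, ht.2⟩)
      rw [this, h3 s ⟨hs.le, le_rfl⟩, smul_smul, div_mul_cancel₀ _ hs.ne']

lemma RLift.one {dev : X → V} (hdev : IsLocalHomeomorph dev) {ε : ℝ} (hε : 0 < ε)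
    (hext : ∀ y, RExt dev y ε) {z : X} (hz : dev z = 0) (v : V) : RLift dev z v 1 := by
  obtain ⟨s, hs, h⟩ := RLift.start hdev hz v
  have h1 : ∀ k : ℕ, RLift dev z v (s * (1 + ε) ^ k) := by
    intro k
    induction k with
    | zero => simpa using h
    | succ k ih =>
      rw [pow_succ, ← mul_assoc]
      exact RLift.extend hε hext (by positivity) ih
  obtain ⟨k, hk⟩ := pow_unbounded_of_one_lt (1 / s) (by linarith : (1 : ℝ) < 1 + ε)
  refine (h1 k).anti ?_
  rw [div_lt_iff₀ hs] at hk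
  linarith

/-- **Radiant manifolds.** -/
theorem radiant [T2Space X] [Nontrivial V] {G : Type*} [Group G] [MulAction G X]
    (hc : ∀ g : G, Continuous fun x : X => g • x)
    (free : ∀ (g : G) (x : X), g • x = x → g = 1)
    (cocompact : ∃ K : Set X, IsCompact K ∧ ∀ x, ∃ g : G, g • x ∈ K)
    (dev : X → V) (hdev : IsLocalHomeomorph dev) (ρ : G → (V →L[ℝ] V))
    (heq : ∀ g x, dev (g • x) = ρ g (dev x)) (z : X) : dev z ≠ 0 := by
  intro hz
  obtain ⟨K, hK, hcov⟩ := cocompact
  -- uniform radial extension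
  obtain ⟨ε, hε, hext⟩ : ∃ ε > 0, ∀ y ∈ K, RExt dev y ε := by
    refine hK.induction_on (p := fun s => ∃ ε > 0, ∀ y ∈ s, RExt dev y ε)
      ⟨1, one_pos, by simp⟩ ?_ ?_ ?_
    · rintro s t hst ⟨ε, hε, h⟩
      exact ⟨ε, hε, fun y hy => h y (hst hy)⟩
    · rintro s t ⟨ε, hε, h⟩ ⟨δ, hδ, h'⟩
      refine ⟨min ε δ, lt_min hε hδ, ?_⟩
      rintro y (hy | hy)
      · exact (h y hy).anti (min_le_left _ _)
      · exact (h' y hy).anti (min_le_right _ _)
    · intro x _
      obtain ⟨ε, hε, U, hU, h⟩ := local_ext hdev x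
      exact ⟨U, mem_nhdsWithin_of_mem_nhds hU, ε, hε, h⟩
  have hext' : ∀ y, RExt dev y ε := by
    intro y
    obtain ⟨g, hg⟩ := hcov y
    obtain ⟨γ, h1, h2, h3⟩ := hext _ hg
    refine ⟨fun t => g⁻¹ • γ t, (hc g⁻¹).comp_continuousOn h1, by simp only [h2, inv_smul_smul],
      fun t ht => ?_⟩
    rw [heq, h3 t ht, map_smul, ← heq, inv_smul_smul]
  -- the section
  choose γ hγ1 hγ2 hγ3 using fun v => RLift.one hdev hε hext' hz v
  let f : C(unitInterval × V, V) := ⟨fun p => (p.1 : ℝ) • p.2, by fun_prop⟩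
  have hsep : IsSeparatedMap dev := T2Space.isSeparatedMap dev
  have hcont : Continuous fun p : unitInterval × V => γ p.2 p.1 := by
    refine hdev.continuous_lift hsep f ?_ ?_ ?_
    · funext p
      exact hγ3 p.2 p.1 p.1.2
    · simp only [Icc.coe_zero, hγ2]
      exact continuous_const
    · intro v
      have := continuousOn_iff_continuous_domRestrict.mp (hγ1 v)
      exact this
  let σ : V → X := fun v => γ v 1
  have hσ : Continuous σ := by
    have : σ = (fun p : unitInterval × V => γ p.2 p.1) ∘ fun v => (1, v) := by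
      funext v; simp [σ]
    rw [this]
    exact hcont.comp (by fun_prop)
  have hdσ : ∀ v, dev (σ v) = v := by
    intro v
    have := hγ3 v 1 ⟨zero_le_one, le_rfl⟩
    rw [one_smul] at this
    exact this
  have hlh : IsLocalHomeomorph σ := by
    refine IsLocalHomeomorph.of_comp (g := dev) ?_ hdev hσ
    have : dev ∘ σ = Homeomorph.refl V := by funext v; exact hdσ v
    rw [this]
    exact (Homeomorph.refl V).isLocalHomeomorph
  have hSo : IsOpen (range σ) := hlh.isOpenMap.isOpen_range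
  have hSeq : range σ = {x | σ (dev x) = x} := by
    ext x
    constructor
    · rintro ⟨v, rfl⟩
      simp only [Set.mem_ofPred_eq, hdσ]
    · intro h
      exact ⟨dev x, h⟩
  have hSc : IsClosed (range σ) := by
    rw [hSeq]
    exact isClosed_eq (hσ.comp hdev.continuous) continuous_id
  -- translates are disjoint
  have hdisj : ∀ (g : G) (v w : V), g • σ w = σ v → g = 1 := by
    intro g v w h
    have hgi : ∀ u, ρ g⁻¹ (ρ g u) = u := by
      intro u
      rw [← hdσ u, ← heq, ← heq, inv_smul_smul]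
    have hw : ρ g w = v := by
      have := congrArg dev h
      rwa [heq, hdσ, hdσ] at this
    have h1 : (fun u => g⁻¹ • σ (ρ g u)) = σ := by
      refine hsep.eq_of_comp_eq hdev.isLocallyInjective
        ((hc g⁻¹).comp (hσ.comp (ρ g).continuous)) hσ ?_ w ?_
      · funext u
        simp only [Function.comp, heq, hdσ, hgi]
      · simp only [hw, ← h, inv_smul_smul]
    have h2 := congrFun h1 0
    simp only [map_zero] at h2
    exact inv_eq_one.mp (free _ _ h2)
  -- only finitely many translates meet a compact set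
  have hfin : ∀ L : Set X, IsCompact L → {g : G | ∃ x ∈ L, g⁻¹ • x ∈ range σ}.Finite := by
    intro L hL
    refine hL.induction_on (p := fun s => {g : G | ∃ x ∈ s, g⁻¹ • x ∈ range σ}.Finite) ?_ ?_ ?_ ?_
    · simp
    · intro s t hst h
      refine h.subset ?_
      rintro g ⟨x, hx, hg⟩
      exact ⟨x, hst hx, hg⟩
    · intro s t h h'
      refine (h.union h').subset ?_
      rintro g ⟨x, hx | hx, hg⟩
      · exact Or.inl ⟨x, hx, hg⟩
      · exact Or.inr ⟨x, hx, hg⟩
    · intro x _
      obtain ⟨e, hxe, he⟩ := hdev x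
      have h1 : e.target ∈ 𝓝 (e x) := e.open_target.mem_nhds (e.map_source hxe)
      obtain ⟨r, hr, hball⟩ := Metric.mem_nhds_iff.mp h1
      have hN : e.symm '' Metric.ball (e x) r ∈ 𝓝 x := by
        have h2 := e.symm.image_mem_nhds (x := e x) (by simpa using e.map_source hxe)
          (Metric.ball_mem_nhds (e x) hr)
        rwa [e.left_inv hxe] at h2
      have hpre : IsPreconnected (e.symm '' Metric.ball (e x) r) :=
        (convex_ball (e x) r).isPreconnected.image _ (e.continuousOn_symm.mono hball)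
      refine ⟨_, mem_nhdsWithin_of_mem_nhds hN, ?_⟩
      have hx0 : x ∈ e.symm '' Metric.ball (e x) r := mem_of_mem_nhds hN
      have key : ∀ g : G, (∃ y ∈ e.symm '' Metric.ball (e x) r, g⁻¹ • y ∈ range σ) →
          g⁻¹ • x ∈ range σ := by
        rintro g ⟨y, hy, hgy⟩
        have hcl : IsClopen ((fun x : X => g⁻¹ • x) ⁻¹' range σ) :=
          ⟨hSc.preimage (hc _), hSo.preimage (hc _)⟩
        exact hpre.subset_isClopen hcl ⟨y, hy, hgy⟩ hx0
      apply Set.Subsingleton.finite
      intro g hg g' hg'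
      obtain ⟨v, hv⟩ := key g hg
      obtain ⟨w, hw⟩ := key g' hg'
      have h5 : (g'⁻¹ * g) • σ v = σ w := by rw [hw, hv, mul_smul, smul_inv_smul]
      have := hdisj _ _ _ h5
      rw [inv_mul_eq_one] at this
      exact this.symm
  -- contradiction
  have hΦ := hfin K hK
  have hcomp : IsCompact (⋃ g ∈ {g : G | ∃ x ∈ K, g⁻¹ • x ∈ range σ},
      (fun x : X => g⁻¹ • x) '' K) :=
    hΦ.isCompact_biUnion fun g _ => hK.image (hc _)
  have hScomp : IsCompact (range σ) := by
    refine hcomp.of_isClosed_subset hSc ?_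
    rintro x hx
    obtain ⟨g, hg⟩ := hcov x
    refine mem_biUnion (x := g) ⟨g • x, hg, by rwa [inv_smul_smul]⟩ ⟨g • x, hg, ?_⟩
    simp only [inv_smul_smul]
  have hV : IsCompact (univ : Set V) := by
    have h6 := hScomp.image hdev.continuous
    have h7 : dev '' range σ = univ := by
      rw [eq_univ_iff_forall]
      exact fun v => ⟨σ v, ⟨v, rfl⟩, hdσ v⟩
    rwa [h7] at h6
  have : NoncompactSpace V := NormedSpace.noncompactSpace ℝ V
  exact noncompact_univ V hV

end

end Pool.Agent.Hhelper78.Chern
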