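import Pool.Agent.Hhelper78.Chern.DimOne
import Pool.Agent.Hhelper78.Chern.Radiant

/-!
# The affine manifold over an invariant affine subspace
-/

namespace Pool.Agent.Hhelper78.Chern

open Topology Set

variable {E : Type} [NormedAddCommGroup E] [InnerProductSpace ℝ E]

lemma isLocalHomeomorph_of_isOpenMap {X Y : Type*} [TopologicalSpace X] [TopologicalSpace Y]
    {f : X → Y} (hc : Continuous f) (ho : IsOpenMap f) (hi : IsLocallyInjective f) :
    IsLocalHomeomorph f := by
  rw [isLocalHomeomorph_iff_isOpenEmbedding_restrict]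
  intro x
  obtain ⟨U, hU, hx, hinj⟩ := hi x
  exact ⟨U, hU.mem_nhds hx, IsOpenEmbedding.of_continuous_injective_isOpenMap
    (hc.comp continuous_subtype_val) (injOn_iff_injective.mp hinj)
    (ho.comp hU.isOpenMap_subtype_val)⟩

/-- the affine subspace `p + L` is invariant under the holonomy of `H` -/
def SubInv (M : ClosedAffineManifold E) (H : Subgroup M.deck) (p : E) (L : Submodule ℝ E) : Prop :=
  ∀ g ∈ H, ∀ v ∈ L, M.hol g (p + v) - p ∈ L

section

variable {M : ClosedAffineManifold E} {H : Subgroup M.deck} {p : E} {L : Submodule ℝ E}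

lemma SubInv.lin (h : SubInv M H p L) {g : M.deck} (hg : g ∈ H) {v : E} (hv : v ∈ L) :
    (M.hol g).linear v ∈ L := by
  have h1 := L.sub_mem (h g hg v hv) (h g hg 0 L.zero_mem)
  rw [sub_sub_sub_cancel_right, aff_sub] at h1
  simpa using h1

lemma hol_inv_hol (g : M.deck) (v : E) : M.hol g⁻¹ (M.hol g v) = v := by
  rw [← AffineEquiv.trans_apply, ← AffineEquiv.mul_def, ← map_mul, inv_mul_cancel, map_one]
  rfl

lemma hol_hol_inv (g : M.deck) (v : E) : M.hol g (M.hol g⁻¹ v) = v := by
  rw [← AffineEquiv.trans_apply, ← AffineEquiv.mul_def, ← map_mul, mul_inv_cancel, map_one]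
  rfl

lemma hol_mul (g h : M.deck) (v : E) : M.hol (g * h) v = M.hol g (M.hol h v) := by
  rw [map_mul]; rfl

lemma lin_inv_lin (g : M.deck) (v : E) : (M.hol g⁻¹).linear ((M.hol g).linear v) = v := by
  have h1 : (M.hol g⁻¹).linear ((M.hol g).linear v) = (M.hol g⁻¹ * M.hol g).linear v := rfl
  rw [h1, ← map_mul, inv_mul_cancel, map_one]
  rfl

/-- the holonomy of the affine manifold over `p + L` -/
def subHol (h : SubInv M H p L) : H →* (L ≃ᵃ[ℝ] L) where
  toFun g :=
    { toFun := fun v => ⟨M.hol g (p + v) - p, h g g.2 v v.2⟩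
      invFun := fun v => ⟨M.hol (g : M.deck)⁻¹ (p + v) - p, h _ (g⁻¹).2 v v.2⟩
      left_inv := fun v => by
        ext
        simp only [add_sub_cancel, hol_inv_hol, add_sub_cancel_left]
      right_inv := fun v => by
        ext
        simp only [add_sub_cancel, hol_hol_inv, add_sub_cancel_left]
      linear :=
        { toFun := fun v => ⟨(M.hol g).linear v, h.lin g.2 v.2⟩
          map_add' := fun v w => by ext; simp
          map_smul' := fun c v => by ext; simp
          invFun := fun v => ⟨(M.hol (g : M.deck)⁻¹).linear v, h.lin (g⁻¹).2 v.2⟩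
          left_inv := fun v => by
            ext
            simp only [lin_inv_lin]
          right_inv := fun v => by
            ext
            have := lin_inv_lin (g : M.deck)⁻¹ (v : E)
            rw [inv_inv] at this
            simpa using this }
      map_vadd' := fun v w => by
        ext
        simp only [vadd_eq_add, Submodule.coe_add, LinearEquiv.coe_mk, LinearMap.coe_mk,
          AddHom.coe_mk, Equiv.coe_fn_mk]
        have h1 := (M.hol (g : M.deck)).map_vadd (p + v) (w : E)
        rw [vadd_eq_add, vadd_eq_add] at h1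
        rw [show p + ((w : E) + (v : E)) = w + (p + v) by abel, h1]
        abel }
  map_one' := by
    ext v
    have : M.hol ((1 : H) : M.deck) = 1 := by rw [Subgroup.coe_one, map_one]
    change M.hol ((1 : H) : M.deck) (p + v) - p = v
    rw [this]
    change p + (v : E) - p = v
    abel
  map_mul' g g' := by
    ext v
    change M.hol ((g * g' : H) : M.deck) (p + v) - p = M.hol g (p + (M.hol g' (p + v) - p)) - p
    rw [Subgroup.coe_mul, hol_mul, add_sub_cancel]

lemma subHol_apply (h : SubInv M H p L) (g : H) (v : L) :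
    (subHol h g v : E) = M.hol g (p + v) - p := rfl

lemma subHol_linear_apply (h : SubInv M H p L) (g : H) (v : L) :
    ((subHol h g).linear v : E) = (M.hol g).linear v := rfl

/-- the set of points developing into `p + L` -/
def subSet (M : ClosedAffineManifold E) (p : E) (L : Submodule ℝ E) : Set M.cover :=
  {x | M.dev x - p ∈ L}

lemma isClosed_subSet [FiniteDimensional ℝ E] (M : ClosedAffineManifold E) (p : E)
    (L : Submodule ℝ E) : IsClosed (subSet M p L) :=
  (L.closed_of_finiteDimensional).preimage (M.isLocalHomeomorph_dev.continuous.sub continuous_const)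

lemma SubInv.mem (h : SubInv M H p L) {g : M.deck} (hg : g ∈ H) {x : M.cover}
    (hx : x ∈ subSet M p L) : g • x ∈ subSet M p L := by
  have h1 := h g hg _ hx
  rw [add_sub_cancel] at h1
  change M.dev (g • x) - p ∈ L
  rwa [M.dev_smul]

/-- the closed affine manifold formed by the points developing into `p + L` -/
def subManifold [FiniteDimensional ℝ E] (hH : H.FiniteIndex) (h : SubInv M H p L) :
    ClosedAffineManifold L where
  cover := subSet M p L
  deck := H
  locallyCompactSpace := (isClosed_subSet M p L).isClosedEmbedding_subtypeVal.locallyCompactSpace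
  mulAction :=
    { smul := fun g x => ⟨(g : M.deck) • x.1, h.mem g.2 x.2⟩
      one_smul := fun x => Subtype.ext (one_smul M.deck x.1)
      mul_smul := fun g g' x => Subtype.ext (mul_smul (g : M.deck) (g' : M.deck) x.1) }
  continuous_smul g := ((M.continuous_smul g).comp continuous_subtype_val).subtype_mk _
  free g x hx := by
    have h1 : (g : M.deck) • x.1 = x.1 := congrArg Subtype.val hx
    exact Subtype.ext (M.free _ _ h1)
  proper K hK := by
    have h1 := M.proper (Subtype.val '' K) (hK.image continuous_subtype_val)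
    refine Set.Finite.of_finite_image (f := Subtype.val) (h1.subset ?_) (by simp)
    rintro _ ⟨g, ⟨x, hx, hgx⟩, rfl⟩
    exact ⟨x.1, ⟨x, hx, rfl⟩, ⟨_, hgx, rfl⟩⟩
  cocompact := by
    obtain ⟨K, hK, hcov, -⟩ := exists_cut M H hH
    refine ⟨Subtype.val ⁻¹' K,
      (isClosed_subSet M p L).isClosedEmbedding_subtypeVal.isCompact_preimage hK, fun x => ?_⟩
    obtain ⟨g, hg⟩ := hcov x.1
    exact ⟨g, hg⟩
  dev x := ⟨M.dev x.1 - p, x.2⟩
  isLocalHomeomorph_dev := by
    refine isLocalHomeomorph_of_isOpenMap ?_ ?_ ?_
    · exact ((M.isLocalHomeomorph_dev.continuous.comp continuous_subtype_val).sub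
        continuous_const).subtype_mk _
    · rintro O' ⟨O, hO, rfl⟩
      have h1 : (fun x : subSet M p L => (⟨M.dev x.1 - p, x.2⟩ : L)) '' (Subtype.val ⁻¹' O) =
          (fun v : L => p + (v : E)) ⁻¹' (M.dev '' O) := by
        ext v
        constructor
        · rintro ⟨x, hx, rfl⟩
          refine ⟨x.1, hx, ?_⟩
          simp
        · rintro ⟨x, hx, hv⟩
          have h2 : M.dev x - p = v := by
            rw [hv]; simp
          have h3 : x ∈ subSet M p L := by
            change M.dev x - p ∈ L
            rw [h2]; exact v.2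
          exact ⟨⟨x, h3⟩, hx, Subtype.ext h2⟩
      rw [h1]
      exact (M.isLocalHomeomorph_dev.isOpenMap _ hO).preimage (by fun_prop)
    · intro x
      obtain ⟨U, hU, hx, hinj⟩ := M.isLocalHomeomorph_dev.isLocallyInjective x.1
      refine ⟨Subtype.val ⁻¹' U, hU.preimage continuous_subtype_val, hx, ?_⟩
      intro a ha b hb hab
      have h1 : M.dev a.1 - p = M.dev b.1 - p := congrArg Subtype.val hab
      exact Subtype.ext (hinj ha hb (sub_left_injective h1))
  hol := subHol h
  dev_smul g x := by
    ext
    change M.dev ((g : M.deck) • x.1) - p = M.hol g (p + (M.dev x.1 - p)) - p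
    rw [M.dev_smul, add_sub_cancel]

theorem isOver_subManifold [FiniteDimensional ℝ E] (hH : H.FiniteIndex) (h : SubInv M H p L) :
    IsOver M H p L (subManifold hH h) := by
  refine ⟨fun x => x.1, MulEquiv.refl H, IsEmbedding.subtypeVal, ?_, fun _ _ => rfl,
    fun _ => rfl, fun _ _ => rfl⟩
  ext x
  constructor
  · rintro ⟨y, rfl⟩
    exact y.2
  · intro hx
    exact ⟨⟨x, hx⟩, rfl⟩

/-- if the affine manifold over an invariant affine subspace has a vector field, so has the
whole manifold -/
theorem vnv_of_sub [FiniteDimensional ℝ E] (hH : H.FiniteIndex) (h : SubInv M H p L)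
    (hsub : VirtuallyNonvanishing (subManifold hH h)) : VirtuallyNonvanishing M := by
  classical
  obtain ⟨H', hH', Y, hYc, hYe, hY0⟩ := hsub
  let K : Subgroup M.deck := Subgroup.map H.subtype H'
  have hKH : K ≤ H := Subgroup.map_subtype_le H'
  have hK : K.FiniteIndex := by
    constructor
    have h1 : K.index = H'.index * H.index := Subgroup.index_map_subtype H'
    rw [h1]
    exact mul_ne_zero hH'.index_ne_zero hH.index_ne_zero
  have hKmem : ∀ g : K, Subgroup.inclusion hKH g ∈ H' := by
    rintro ⟨_, g, hg, rfl⟩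
    exact hg
  let ρ : K →* (L ≃ᵃ[ℝ] L) := (subHol h).comp (Subgroup.inclusion hKH)
  -- extend the developing map
  obtain ⟨S, hSc, hSe, hSZ⟩ := exists_equivariant_extension M K hK ρ (subSet M p L)
    (isClosed_subSet M p L) (fun g hg x hx => h.mem (hKH hg) hx)
    (fun x => L.orthogonalProjectionOnto (M.dev x - p))
    (Continuous.continuousOn (by
      exact L.orthogonalProjectionOnto.continuous.comp
        (M.isLocalHomeomorph_dev.continuous.sub continuous_const)))
    (by
      intro g x hx
      have h1 : ((g : M.deck) • x) ∈ subSet M p L := h.mem (hKH g.2) hx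
      have e1 : L.orthogonalProjectionOnto (M.dev x - p) = ⟨M.dev x - p, hx⟩ :=
        L.orthogonalProjectionOnto_mem_subspace_eq_self ⟨M.dev x - p, hx⟩
      have e2 : L.orthogonalProjectionOnto (M.dev ((g : M.deck) • x) - p) =
          ⟨M.dev ((g : M.deck) • x) - p, h1⟩ :=
        L.orthogonalProjectionOnto_mem_subspace_eq_self ⟨M.dev ((g : M.deck) • x) - p, h1⟩
      simp only [e1, e2]
      ext
      change M.dev ((g : M.deck) • x) - p = M.hol g (p + (M.dev x - p)) - p
      rw [M.dev_smul, add_sub_cancel])
  -- extend the vector field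
  obtain ⟨T, hTc, hTe, hTZ⟩ := exists_equivariant_extension M K hK (linHom ρ) (subSet M p L)
    (isClosed_subSet M p L) (fun g hg x hx => h.mem (hKH hg) hx)
    (fun x => if hx : x ∈ subSet M p L then Y ⟨x, hx⟩ else 0)
    (by
      rw [continuousOn_iff_continuous_domRestrict]
      refine hYc.congr fun z => ?_
      simp [Set.domRestrict])
    (by
      intro g x hx
      have h1 : ((g : M.deck) • x) ∈ subSet M p L := h.mem (hKH g.2) hx
      simp only [hx, h1, dif_pos]
      exact hYe _ (hKmem g) ⟨x, hx⟩)
  refine ⟨K, hK, fun x => M.dev x - (p + S x) + T x, ?_, ?_, ?_⟩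
  · exact (M.isLocalHomeomorph_dev.continuous.sub (continuous_const.add
      (continuous_subtype_val.comp hSc))).add (continuous_subtype_val.comp hTc)
  · intro g hg x
    have e1 : p + (S (g • x) : E) = M.hol g (p + S x) := by
      have := congrArg (Subtype.val) (hSe ⟨g, hg⟩ x)
      rw [this]
      change p + (M.hol g (p + S x) - p) = _
      abel
    have e2 : (T (g • x) : E) = (M.hol g).linear (T x) :=
      congrArg (Subtype.val) (hTe ⟨g, hg⟩ x)
    change M.dev (g • x) - (p + (S (g • x) : E)) + (T (g • x) : E) = _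
    rw [e1, e2, M.dev_smul, aff_sub, map_add]
  · intro x hx
    have h1 : M.dev x - p = (S x : E) - T x := by
      have : M.dev x - (p + S x) + T x = 0 := hx
      have h2 : M.dev x - p = (M.dev x - (p + S x) + T x) + (S x - T x) := by abel
      rw [h2, this, zero_add]
    have hxZ : x ∈ subSet M p L := by
      change M.dev x - p ∈ L
      rw [h1]
      exact L.sub_mem (S x).2 (T x).2
    have h2 := hSZ x hxZ
    have h3 := hTZ x hxZ
    simp only [hxZ, dif_pos] at h3
    have e1 : L.orthogonalProjectionOnto (M.dev x - p) = ⟨M.dev x - p, hxZ⟩ :=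
      L.orthogonalProjectionOnto_mem_subspace_eq_self ⟨M.dev x - p, hxZ⟩
    rw [e1] at h2
    have h4 : (S x : E) = M.dev x - p := congrArg Subtype.val h2
    rw [h4] at h1
    have h5 : (T x : E) = 0 := by
      have : M.dev x - p - (M.dev x - p) = M.dev x - p - T x - (M.dev x - p) := by
        rw [← h1]
      have h6 : M.dev x - p - (T x : E) - (M.dev x - p) = -(T x : E) := by abel
      rw [sub_self, h6] at this
      exact neg_eq_zero.mp this.symm
    have h6 : T x = 0 := Subtype.ext h5
    rw [h3] at h6
    exact hY0 _ h6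

/-- an invariant point -/
theorem vnv_of_fixed [FiniteDimensional ℝ E] [Nontrivial E] (hH : H.FiniteIndex)
    (h : ∀ g ∈ H, M.hol g p = p) : VirtuallyNonvanishing M := by
  refine vnv_of_convex_disjoint M H hH {p} (convex_singleton p) ⟨p, rfl⟩ ?_ ?_
  · intro x hx
    obtain ⟨K, hK, hcov, -⟩ := exists_cut M H hH
    refine radiant (G := H) (fun g => M.continuous_smul g)
      (fun g x hx => Subtype.ext (M.free _ _ hx)) ⟨K, hK, hcov⟩ (fun x => M.dev x - p) ?_
      (fun g => LinearMap.toContinuousLinearMap ((M.hol (g : M.deck)).linear : E →ₗ[ℝ] E)) ?_ x ?_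
    · have h1 : (fun x => M.dev x - p) = (Homeomorph.subRight p) ∘ M.dev := rfl
      rw [h1]
      exact (Homeomorph.subRight p).isLocalHomeomorph.comp M.isLocalHomeomorph_dev
    · intro g x
      change M.dev ((g : M.deck) • x) - p = (M.hol (g : M.deck)).linear (M.dev x - p)
      rw [M.dev_smul, ← aff_sub, h g g.2]
    · change M.dev x - p = 0
      rw [Set.mem_singleton_iff.mp hx, sub_self]
  · rintro g hg _ rfl
    exact h g hg

end

end Pool.Agent.Hhelper78.Chern
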